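import Pool.Agent.Y676.G2.Sha
import Pool.Agent.Y676.G2.Lv
import Pool.Agent.Y676.G2.Tam
import Pool.Agent.Y676.G2.Fld
import Pool.Agent.Y676.G2.MinL
import Pool.Agent.Y676.G2.Cr
import Pool.Agent.Y676.G2.Rat
import Pool.Agent.Y676.G2.Val2
import Pool.Agent.Y699.Pos
import Pool.Agent.Y699.Mn
import Pool.Agent.Y297.G2.E0
import Pool.Agent.Y888.G2.Tam
import Pool.Agent.Y529.G2.Tam2
import Pool.Agent.Y43.G2.Per
import Pool.Agent.Y839.G2.MSV
import Pool.Agent.Y37.G2.Gss
import Pool.Agent.Y759.G2Gal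
import Pool.Agent.Y153.G2.Nrm

/-!
# The 2-part of the Birch and Swinnerton-Dyer conjecture for a positive proportion of quadratic
# twists over `ℚ(i)`

`K` is a number field with an isomorphism `e` of the ring `ℤ[i]` of Gaussian integers with its ring
of integers (so `K = ℚ(i)`), and `E_D : y² = x³ - D² x` the quadratic twist of `y² = x³ - x` by the
Gaussian integer `D`.  For the `D ≡ 1 mod 2 + 2 i`, squarefree with `N D ≡ 5 mod 8`, such that no
factorisation `D = d d'` in two coprime factors different from units has `d'` a square modulo all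
prime divisors of `d` and `d` a square modulo all prime divisors of `d'`, we prove the whole statement of the
2-part of the Birch and Swinnerton-Dyer conjecture: `L(E_D/K, s)` is entire, order of vanishing and
rank are zero, `Ш(E_D/K)[2^∞] = 0`, and `L(E_D/K, 1) √|Δ_K| / Ω` is a rational number with the
2-adic valuation of `#Ш(E_D/K)[2^∞] Tam(E_D/K) / (#E_D(K)_tors)²`.  These `D` have positive lower density
among the Gaussian integers, ordered by norm.
-/

set_option autoImplicit false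
set_option linter.unusedSectionVars false

open NumberField NumberField.InfinitePlace IsDedekindDomain WeierstrassCurve MeasureTheory

namespace Pool.Agent.Results.MP_e996df_nt.PositiveProportionTwoPart

open scoped Classical

open Pool.Agent.TH841.NF.D (Sha)

section

variable {K : Type} [Field K] [NumberField K]

/-- The elliptic curve `E_D : y² = x³ - D² x` over `ℤ[i]`. -/
noncomputable def E (e : GaussianInt ≃+* 𝓞 K) (D : GaussianInt) : WeierstrassCurve (𝓞 K) :=
  ⟨0, 0, 0, -(e D) ^ 2, 0⟩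

/-- The curve over `K` given by the equation `W`. -/
abbrev gen (W : WeierstrassCurve (𝓞 K)) : WeierstrassCurve K := W.map (algebraMap (𝓞 K) K)

/-- The curve over the completion `K_v` given by the equation `W`. -/
noncomputable abbrev loc (W : WeierstrassCurve (𝓞 K)) (v : HeightOneSpectrum (𝓞 K)) :
    WeierstrassCurve (v.adicCompletion K) :=
  (gen W).map (algebraMap K (v.adicCompletion K))

/-- The number of the affine points `(x, y)` of the reduction of `W` modulo `v`. -/
noncomputable def pts (W : WeierstrassCurve (𝓞 K)) (v : HeightOneSpectrum (𝓞 K)) : ℕ :=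
  Nat.card {P : (𝓞 K ⧸ v.asIdeal) × (𝓞 K ⧸ v.asIdeal) //
    (W.map (Ideal.Quotient.mk v.asIdeal)).toAffine.Equation P.1 P.2}

/-- `a_v = N v + 1 - #W(k_v)`, the points over the residue field `k_v` counted with the point at
infinity. -/
noncomputable def a (W : WeierstrassCurve (𝓞 K)) (v : HeightOneSpectrum (𝓞 K)) : ℤ :=
  (Ideal.absNorm v.asIdeal : ℤ) - pts W v

/-- The Euler factor of `L(W/K, s)` at `v`, for an equation `W` that is minimal at `v` :
`(1 - a_v N v^(-s) + N v^(1 - 2 s))⁻¹` if the discriminant is a unit at `v`, and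
`(1 - a_v N v^(-s))⁻¹` otherwise. -/
noncomputable def factor (W : WeierstrassCurve (𝓞 K)) (s : ℂ) (v : HeightOneSpectrum (𝓞 K)) : ℂ :=
  (1 - (a W v : ℂ) * (Ideal.absNorm v.asIdeal : ℂ) ^ (-s) +
    if W.Δ ∈ v.asIdeal then 0 else (Ideal.absNorm v.asIdeal : ℂ) ^ (1 - 2 * s))⁻¹

/-- The equation is minimal at the finite place `v` of `K`: no change of variables over `K` that
gives coefficients integral at `v` decreases the valuation of the discriminant. -/
def MinimalAt (W : WeierstrassCurve (𝓞 K)) (v : HeightOneSpectrum (𝓞 K)) : Prop :=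
  ∀ C : VariableChange K, v.valuation K (C • gen W).a₁ ≤ 1 →
    v.valuation K (C • gen W).a₂ ≤ 1 → v.valuation K (C • gen W).a₃ ≤ 1 →
    v.valuation K (C • gen W).a₄ ≤ 1 → v.valuation K (C • gen W).a₆ ≤ 1 →
    v.valuation K (C • gen W).Δ ≤ v.valuation K (gen W).Δ

/-- `E⁰(K_v)`, the group of the points of `W` over the completion `K_v` with nonsingular reduction:
the points `(x, y)` where `x` is not integral, or one of the partial derivatives of
`y² + a₁ x y + a₃ y - x³ - a₂ x² - a₄ x - a₆` is a unit at `(x, y)`, and the point at infinity. -/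
noncomputable def nonsing (W : WeierstrassCurve (𝓞 K)) (v : HeightOneSpectrum (𝓞 K)) :
    AddSubgroup (loc W v).toAffine.Point :=
  AddSubgroup.closure {P | ∀ x y h, P = Affine.Point.some x y h →
    1 < Valued.v x ∨
      Valued.v ((loc W v).a₁ * y - (3 * x ^ 2 + 2 * (loc W v).a₂ * x + (loc W v).a₄)) = 1 ∨
      Valued.v (2 * y + (loc W v).a₁ * x + (loc W v).a₃) = 1}

/-- The Tamagawa number `c_v = [E(K_v) : E⁰(K_v)]` of a minimal equation. -/
noncomputable def c (W : WeierstrassCurve (𝓞 K)) (v : HeightOneSpectrum (𝓞 K)) : ℕ :=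
  (nonsing W v).index

/-- The product of the Tamagawa numbers. -/
noncomputable def Tam (W : WeierstrassCurve (𝓞 K)) : ℕ :=
  ∏ᶠ v : HeightOneSpectrum (𝓞 K), c W v

/-- The 2-primary part of the Tate-Shafarevich group over `K`. -/
def Sha2 (W : WeierstrassCurve (𝓞 K)) : Set (Sha (gen W)) := {x | ∃ n : ℕ, 2 ^ n • x = 0}

/-- The torsion subgroup of the group of the points over `K`. -/
def tors (W : WeierstrassCurve (𝓞 K)) : Set (gen W).toAffine.Point :=
  {P | ∃ n : ℕ, 0 < n ∧ n • P = 0}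

/-- The rank of the group of the points over `K`. -/
noncomputable def rank (W : WeierstrassCurve (𝓞 K)) : ℕ :=
  Module.finrank ℤ (gen W).toAffine.Point

/-- `4 x³ + b₂ x² + 2 b₄ x + b₆ = (2 y + a₁ x + a₃)²`, where `b₂ = a₁² + 4 a₂`,
`b₄ = 2 a₄ + a₁ a₃`, `b₆ = a₃² + 4 a₆`. -/
def cubic {R : Type} [CommRing R] (W : WeierstrassCurve R) (x : R) : R :=
  4 * x ^ 3 + W.b₂ * x ^ 2 + 2 * W.b₄ * x + W.b₆

/-- `∫_{W(ℝ)} |ω|` with `ω = dx / (2 y + a₁ x + a₃)`, as an integral over `x`: two real points lie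
over each `x` with `cubic x > 0`. -/
noncomputable def realPeriod (W : WeierstrassCurve ℝ) : ℝ :=
  2 * ∫ x in {x : ℝ | 0 < cubic W x}, 1 / √(cubic W x)

/-- `2 ∫_{W(ℂ)} |ω ∧ ω̄|`, where `|ω ∧ ω̄| = du dv` in a local parameter `z = u + i v` with
`dz = ω`, as an integral over `x`: two points lie over a general `x`, and `|ω ∧ ω̄|` is the area
element of the plane of `x` divided by `|cubic x|`. -/
noncomputable def complexPeriod (W : WeierstrassCurve ℂ) : ℝ := 2 * (2 * ∫ x : ℂ, 1 / ‖cubic W x‖)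

/-- The global period of an equation that is minimal at all finite places. -/
noncomputable def Omega (W : WeierstrassCurve (𝓞 K)) : ℝ :=
  (∏ w : {w : InfinitePlace K // w.IsReal}, realPeriod ((gen W).map (embedding_of_isReal w.2))) *
    ∏ w : {w : InfinitePlace K // w.IsComplex}, complexPeriod ((gen W).map w.1.embedding)

/-- The 2-part of the Birch and Swinnerton-Dyer conjecture, in the case of rank zero, for an elliptic
curve over `K` with an equation `W` that is minimal at all finite places. -/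
def TwoPart (W : WeierstrassCurve (𝓞 K)) : Prop :=
  (∀ v : HeightOneSpectrum (𝓞 K), MinimalAt W v) ∧
  {v : HeightOneSpectrum (𝓞 K) | c W v ≠ 1}.Finite ∧
  ∃ L : ℂ → ℂ, Differentiable ℂ L ∧
    (∀ s : ℂ, 3 / 2 < s.re → HasProd (factor W s) (L s)) ∧
    (analyticOrderAt L 1 = rank W ∧ rank W = 0 ∧ Finite (gen W).toAffine.Point) ∧
    ((Sha2 W).Finite ∧ Sha2 W = {0}) ∧
    ∃ r : ℚ, L 1 * √|(discr K : ℝ)| = r * Omega W ∧ r ≠ 0 ∧
      padicValRat 2 r = padicValRat 2
        ((Nat.card (Sha2 W) * Tam W : ℚ) / (Nat.card (tors W) : ℚ) ^ 2)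

end

/-- `D ≡ 1 mod 2 + 2 i`. Every Gaussian integer of odd norm has exactly one associate with this
property. -/
def Primary (D : GaussianInt) : Prop := (⟨2, 2⟩ : GaussianInt) ∣ D - 1

/-- The criterion: `D` is primary and squarefree, `N D ≡ 5 mod 8`, and in every factorisation
`D = d d'` in primary factors different from `1` one of the factors is not a square modulo some prime
divisor of the other. -/
def Criterion (D : GaussianInt) : Prop :=
  Primary D ∧ Squarefree D ∧ D.norm % 8 = 5 ∧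
    ∀ d d' : GaussianInt, Primary d → Primary d' → D = d * d' →
      (∀ π : GaussianInt, Prime π → π ∣ d → ∃ b, π ∣ d' - b ^ 2) →
      (∀ π : GaussianInt, Prime π → π ∣ d' → ∃ b, π ∣ d - b ^ 2) → d = 1 ∨ d' = 1

/-- The prime divisors of `D`, up to units. -/
def primes (D : GaussianInt) : Set GaussianInt := {π | Prime π ∧ Primary π ∧ π ∣ D}

section proof

variable {K : Type} [Field K] [NumberField K]

open Pool.Agent.Y676.G2
open Pool.Agent.Y699 (Good PD mem_PD crv crv_min crv_map GLat)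

lemma gen_E (e : GaussianInt ≃+* 𝓞 K) (D : GaussianInt) : gen (E e D) = WD (AA e D) := by
  show (crv (e D)).map (algebraMap (𝓞 K) K) = crv (AA e D)
  rw [crv_map]
  rfl

lemma loc_E (e : GaussianInt ≃+* 𝓞 K) (D : GaussianInt) (v : HeightOneSpectrum (𝓞 K)) :
    loc (E e D) v = cv (algebraMap K (v.adicCompletion K) (AA e D)) := by
  show (gen (E e D)).map _ = crv (algebraMap K (v.adicCompletion K) (AA e D))
  rw [gen_E]
  show (crv (AA e D)).map _ = _
  rw [crv_map]

lemma c_E (e : GaussianInt ≃+* 𝓞 K) (D : GaussianInt) (v : HeightOneSpectrum (𝓞 K)) :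
    c (E e D) v = tamv v (AA e D) := by
  have h : c (E e D) v = (E0 (loc (E e D) v) (Pool.Agent.Y682.vv v)).index := rfl
  rw [h, loc_E]
  rfl

lemma factor_eq (e : GaussianInt ≃+* 𝓞 K) (D : GaussianInt) (s : ℂ) :
    factor (E e D) s = fun v => Pool.Agent.Y699.lf (crv (e D)) v s := by
  funext v
  unfold factor Pool.Agent.Y699.lf a
  have h0 : ((Ideal.absNorm v.asIdeal : ℕ) : ℂ) ≠ 0 := by
    have : Ideal.absNorm v.asIdeal ≠ 0 := by
      rw [Ne, Ideal.absNorm_eq_zero_iff]
      exact v.ne_bot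
    exact_mod_cast this
  have h1 : ((Ideal.absNorm v.asIdeal : ℕ) : ℂ) ^ (1 - 2 * s) =
      ((Ideal.absNorm v.asIdeal : ℕ) : ℂ) * ((Ideal.absNorm v.asIdeal : ℕ) : ℂ) ^ (-2 * s) := by
    have e1 : (1 - 2 * s : ℂ) = 1 + (-2 * s) := by ring
    rw [e1, Complex.cpow_add _ _ h0, Complex.cpow_one]
  have h2 : (pts (E e D) v : ℂ) =
      (Pool.Agent.Y699.Mdl.aff ((crv (e D)).map (Ideal.Quotient.mk v.asIdeal)) : ℂ) := rfl
  have h3 : (E e D).Δ ∈ v.asIdeal ↔ (crv (e D)).Δ ∈ v.asIdeal := Iff.rfl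
  rw [h1]
  push_cast
  rw [h2]
  by_cases h4 : (crv (e D)).Δ ∈ v.asIdeal
  · rw [if_pos (h3.2 h4), if_pos h4, zero_mul]
  · rw [if_neg (fun h => h4 (h3.1 h)), if_neg h4]

lemma Sha2_eq (W : WeierstrassCurve (𝓞 K)) (h : ∀ s : Sha (gen W), 2 • s = 0 → s = 0) :
    Sha2 W = {0} := by
  have key : ∀ (j : ℕ) (x : Sha (gen W)), 2 ^ j • x = 0 → x = 0 := by
    intro j
    induction j with
    | zero => intro x hx; rw [pow_zero, one_nsmul] at hx; exact hx
    | succ j ih =>
      intro x hx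
      rw [pow_succ, mul_nsmul] at hx
      exact ih x (h _ hx)
  ext x
  constructor
  · rintro ⟨k, hk⟩
    exact key k x hk
  · rintro rfl
    exact ⟨0, nsmul_zero _⟩

lemma Omega_E {L : PeriodPair} {Ω : ℂ} (h : GLat L Ω) (e : GaussianInt ≃+* 𝓞 K)
    {D : GaussianInt} (hD : D ≠ 0) : Omega (E e D) = 2 * ‖Ω‖ ^ 2 / √(D.norm : ℝ) := by
  have hN : (0 : ℝ) ≤ (D.norm : ℝ) := by exact_mod_cast GaussianInt.norm_nonneg D
  have hw : ∀ w : InfinitePlace K, complexPeriod ((gen (E e D)).map w.embedding) =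
      2 * ‖Ω‖ ^ 2 / √(D.norm : ℝ) := by
    intro w
    set δ : ℂ := w.embedding (AA e D) with hδ
    have hδn : ‖δ‖ = √(D.norm : ℝ) := by
      have h1 := norm_hom (w.embedding.comp (AA e)) D
      rw [← Real.sqrt_sq (norm_nonneg δ)]
      congr 1
    have hδ0 : δ ≠ 0 := by
      rw [hδ, Ne, map_eq_zero]
      exact AA_ne e hD
    have hc : ∀ x : ℂ, cubic ((gen (E e D)).map w.embedding) x = 4 * x ^ 3 - 4 * δ ^ 2 * x := by
      intro x
      rw [gen_E]
      have e1 : (WD (AA e D)).map w.embedding = crv δ := crv_map _ _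
      rw [e1]
      unfold cubic crv WeierstrassCurve.b₂ WeierstrassCurve.b₄ WeierstrassCurve.b₆
      ring
    unfold complexPeriod
    simp_rw [hc]
    rw [Pool.Agent.Y43.G2.t_PER L Ω h.lat.ne h.g2 h.g3 (fun w' => by
      rw [Pool.Agent.Y699.mem_lat h.lat]
      constructor
      · rintro ⟨t, ht⟩
        refine ⟨t.re, t.im, ?_⟩
        rw [ht]
        unfold Pool.Agent.H304R3.HK.tc
        ring
      · rintro ⟨x, y, hxy⟩
        refine ⟨⟨x, y⟩, ?_⟩
        rw [hxy]
        unfold Pool.Agent.H304R3.HK.tc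
        ring) δ hδ0, hδn]
    ring
  unfold Omega
  have h1 : IsEmpty {w : InfinitePlace K // w.IsReal} := ⟨fun w => no_real e w.1 w.2⟩
  have h2 : Nonempty (InfinitePlace K) := inferInstance
  obtain ⟨w0⟩ := h2
  have hw0 : w0.IsComplex := not_isReal_iff_isComplex.1 (no_real e w0)
  rw [Finset.univ_eq_empty, Finset.prod_empty, one_mul,
    Finset.prod_congr rfl (fun w _ => hw w.1), Finset.prod_const]
  have h3 : (Finset.univ : Finset {w : InfinitePlace K // w.IsComplex}) = {⟨w0, hw0⟩} := by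
    ext w
    simp only [Finset.mem_univ, Finset.mem_singleton, true_iff]
    exact Subtype.ext (unique_place e _ _)
  rw [h3, Finset.card_singleton, pow_one]

lemma primes_eq {D : GaussianInt} (hD : D ≠ 0) : primes D = (PD D : Set GaussianInt) := by
  ext π
  rw [Finset.mem_coe, mem_PD hD]
  constructor
  · rintro ⟨h1, h2, h3⟩
    exact ⟨⟨h1, (Pool.Agent.W164.RC.prim_iff_dvd π).2 h2⟩, h3⟩
  · rintro ⟨⟨h1, h2⟩, h3⟩
    exact ⟨h1, (Pool.Agent.W164.RC.prim_iff_dvd π).1 h2, h3⟩

lemma Tam_E (e : GaussianInt ≃+* 𝓞 K) {D : GaussianInt} (hg : Good D) :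
    Tam (E e D) = 2 * 4 ^ (primes D).ncard := by
  unfold Tam
  rw [finprod_congr (fun v => c_E e D v), tam_prod Pool.Agent.Y297.G2.t_E0
    Pool.Agent.Y888.G2.t_TAMG Pool.Agent.Y888.G2.t_TAMP Pool.Agent.Y529.G2.t_TAM2 e hg,
    primes_eq hg.ps.ne, Set.ncard_coe_finset]

lemma card_E (e : GaussianInt ≃+* 𝓞 K) {D : GaussianInt} (hg : Good D) :
    Nat.card (gen (E e D)).toAffine.Point = 4 := by
  rw [gen_E]
  exact Pool.Agent.Y699.card_pts (AA_ne e hg.ps.ne) two_ne_zero
    (fun x y h => Pool.Agent.Y699.crit_pts hg e h)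

theorem two_part (e : GaussianInt ≃+* 𝓞 K) {D : GaussianInt} (hg : Good D) : TwoPart (E e D) := by
  have hD0 := hg.ps.ne
  have hcard := card_E e hg
  have hfin : Finite (gen (E e D)).toAffine.Point := by
    apply Nat.finite_of_card_ne_zero
    rw [hcard]; norm_num
  have htors : tors (E e D) = Set.univ := by
    ext P
    simp only [Set.mem_univ, iff_true]
    exact ⟨Nat.card (gen (E e D)).toAffine.Point, Nat.card_pos,
      card_nsmul_eq_zero' (G := (gen (E e D)).toAffine.Point) (x := P)⟩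
  have hrank : rank (E e D) = 0 := by
    unfold rank
    apply Module.IsTorsion.finrank_eq_zero
    intro P
    refine ⟨⟨(Nat.card (gen (E e D)).toAffine.Point : ℤ), ?_⟩, ?_⟩
    · rw [mem_nonZeroDivisors_iff_ne_zero]
      exact_mod_cast Nat.card_pos.ne'
    · show (Nat.card (gen (E e D)).toAffine.Point : ℤ) • P = 0
      rw [natCast_zsmul]
      exact card_nsmul_eq_zero'
  have hSha : Sha2 (E e D) = {0} := by
    apply Sha2_eq
    rw [gen_E]
    exact sha_two hg e
  obtain ⟨P, Ω, hGL⟩ := Pool.Agent.Y699.exists_GL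
  obtain ⟨M, hLM, hM0, hMv, f, hf, hMf⟩ := LE_val hg hGL
  have hp := Pool.Agent.Y699.fam_PF hg.ps.ne
  obtain ⟨q, hq⟩ := rat Pool.Agent.Y839.G2.t_MSV Pool.Agent.Y759.G2.t_GAL
    Pool.Agent.Y153.G2.t_NRM Pool.Agent.Y37.G2.t_GSS hGL hp (Pool.Agent.Y699.good_nonempty hg) hf
  rw [← hMf, hg.ps.DD] at hq
  have hNpos : (0 : ℝ) < (D.norm : ℝ) := by
    have h1 := GaussianInt.norm_nonneg D
    have h2 : D.norm ≠ 0 := fun h => hD0 (GaussianInt.norm_eq_zero.1 h)
    exact_mod_cast lt_of_le_of_ne h1 h2.symm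
  have htc : ‖Pool.Agent.H304R3.HK.tc D‖ = √(D.norm : ℝ) := by
    rw [← norm_tc_sq, Real.sqrt_sq (norm_nonneg _)]
  rw [htc] at hq
  have hsq : (0 : ℝ) < √(D.norm : ℝ) := Real.sqrt_pos.2 hNpos
  have hMn : ‖M‖ ≠ 0 := norm_ne_zero_iff.2 hM0
  have hΩn : ‖Ω‖ ≠ 0 := norm_ne_zero_iff.2 hGL.lat.ne
  have hq0 : q ≠ 0 := by
    intro h0
    rw [h0, Rat.cast_zero, div_eq_zero_iff] at hq
    rcases hq with h1 | h1
    · exact hMn (pow_eq_zero_iff two_ne_zero |>.1 h1)
    · exact hsq.ne' h1
  set m := (PD D).card with hm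
  -- the value
  have hval : Pool.Agent.Y699.LE hp Finset.univ 1 * ((√|(discr K : ℝ)| : ℝ) : ℂ) =
      ((q * 4 ^ m / 8 : ℚ) : ℂ) * ((Omega (E e D) : ℝ) : ℂ) := by
    rw [hLM, discr_K e, Omega_E hGL e hD0]
    have h4 : √|((-4 : ℤ) : ℝ)| = 2 := by
      have : |((-4 : ℤ) : ℝ)| = 2 ^ 2 := by norm_num
      rw [this, Real.sqrt_sq (by norm_num)]
    rw [h4]
    have h5 : ((q * 4 ^ m / 8 : ℚ) : ℂ) = (((q : ℝ) * 4 ^ m / 8 : ℝ) : ℂ) := by push_cast; rfl
    rw [h5, ← Complex.ofReal_mul, ← Complex.ofReal_mul, ← hq]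
    congr 1
    have h6 : (D.norm : ℝ) = √(D.norm : ℝ) ^ 2 := (Real.sq_sqrt hNpos.le).symm
    rw [h6, Real.sqrt_sq hsq.le]
    field_simp
  have hL1 : Pool.Agent.Y699.LE hp Finset.univ 1 ≠ 0 := by
    rw [hLM, Complex.ofReal_ne_zero]
    have : 0 < ‖M‖ ^ 2 * ‖Ω‖ ^ 2 * 4 ^ m / (8 * (D.norm : ℝ)) := by positivity
    exact this.ne'
  -- the valuation
  have hqv : padicValRat 2 q = 0 := by
    obtain ⟨B, hB⟩ := Pool.Agent.Y699.exists_val
    apply padic_zero (v := B.valuation) hB hq0
    obtain ⟨k1, k2⟩ := hMv B.ValueGroup B.valuation hB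
    have h1 : ((q : ℚ) : ℂ) * ((√(D.norm : ℝ) : ℝ) : ℂ) = M * (starRingEnd ℂ) M := by
      rw [Complex.mul_conj, Complex.normSq_eq_norm_sq]
      have h2 : (q : ℝ) * √(D.norm : ℝ) = ‖M‖ ^ 2 := by
        rw [← hq]; field_simp
      rw [← h2]
      push_cast
      rfl
    have h3 := congrArg B.valuation h1
    have h4 : B.valuation ((√(D.norm : ℝ) : ℝ) : ℂ) = 1 := by
      have h5 : (((√(D.norm : ℝ) : ℝ) : ℂ)) ^ 2 = ((D.norm.natAbs : ℕ) : ℂ) := by
        rw [← Complex.ofReal_pow, Real.sq_sqrt hNpos.le]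
        have h6 : ((D.norm.natAbs : ℕ) : ℤ) = D.norm := GaussianInt.abs_natCast_norm D
        have h7 : ((D.norm.natAbs : ℕ) : ℝ) = (D.norm : ℝ) := by
          rw [← Int.cast_natCast (R := ℝ) D.norm.natAbs, h6]
        rw [← h7]
        simp
      have h8 := congrArg B.valuation h5
      have h5' := hg.five
      rw [map_pow, v_odd hB (by omega)] at h8
      exact (pow_eq_one_iff_of_nonneg zero_le two_ne_zero).1 h8
    rw [map_mul, map_mul, k1, k2, h4, mul_one, mul_one] at h3
    exact h3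
  refine ⟨fun v C h1 h2 h3 h4 h6 => ?_, ?_, Pool.Agent.Y699.LE hp Finset.univ,
    Pool.Agent.Y699.LE_diff hp _, fun s hs => ?_, ⟨?_, hrank, hfin⟩,
    ⟨by rw [hSha]; exact Set.finite_singleton 0, hSha⟩, q * 4 ^ m / 8, hval, ?_, ?_⟩
  · refine min_loc v (E e D) ?_ (fun W' hW' n hn => ?_) C h1 h2 h3 h4 h6
    · show (crv (e D)).Δ ≠ 0
      rw [Pool.Agent.Y699.crv_Δ]
      exact mul_ne_zero (by norm_num) (pow_ne_zero 6 ((map_ne_zero_iff e e.injective).2 hD0))
    · refine (crv_min e hg.ps v).2 W' ?_ n hn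
      obtain ⟨C', hC'⟩ := hW'
      refine ⟨C', hC'.trans ?_⟩
      exact crv_map _ _
  · have h1 := tam_fin Pool.Agent.Y888.G2.t_TAMG e hD0
    refine h1.subset fun v hv => ?_
    have hv' : c (E e D) v ≠ 1 := hv
    rw [c_E] at hv'
    exact hv'
  · rw [factor_eq]
    have h1 := Pool.Agent.Y699.LE_hasProd hp Finset.univ e hs (fun _ => crv (e D)) (by
      rw [hg.ps.DD]
      exact fun v => crv_min e hg.ps v)
    exact h1
  · rw [hrank, Nat.cast_zero]
    exact ((Pool.Agent.Y699.LE_diff hp Finset.univ).analyticAt 1).analyticOrderAt_eq_zero.2 hL1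
  · exact div_ne_zero (mul_ne_zero hq0 (by positivity)) (by norm_num)
  · have hTam : Tam (E e D) = 2 * 4 ^ m := by
      rw [Tam_E e hg, primes_eq hD0, Set.ncard_coe_finset]
    have hfact : Fact (Nat.Prime 2) := ⟨Nat.prime_two⟩
    rw [hSha, htors, Nat.card_univ, Nat.card_unique, hcard, hTam]
    have e1 : ((1 : ℕ) * ((2 * 4 ^ m : ℕ) : ℚ) : ℚ) / ((4 : ℕ) : ℚ) ^ 2 = 4 ^ m / 8 := by
      push_cast
      ring
    rw [e1]
    have e2 : (q * 4 ^ m / 8 : ℚ) = q * (4 ^ m / 8) := by ring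
    rw [e2, padicValRat.mul hq0 (div_ne_zero (by positivity) (by norm_num)), hqv, zero_add]

end proof

/-- The primary squarefree Gaussian integers of norm at most `X` with the property of the criterion. -/
def Twists (X : ℕ) : Set GaussianInt := {D | Criterion D ∧ D.norm ≤ X}

theorem twists_finite (X : ℕ) : (Twists X).Finite := by
  refine (Pool.Agent.Y699.fin_norm_le X).subset ?_
  rintro D ⟨-, h⟩
  have h0 := GaussianInt.norm_nonneg D
  show D.norm.natAbs ≤ X
  omega

/-- **Main theorem.**  For every `D` with the property of the criterion, `K = ℚ(i)` (every number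
field `K` with an isomorphism `e` of `ℤ[i]` with its ring of integers) and `E_D : y² = x³ - D² x` :
the 2-part of the Birch and Swinnerton-Dyer conjecture holds for `E_D` over `K`, with order of
vanishing and rank equal to zero; `E_D(K)` has exactly four elements, and the product of the Tamagawa
numbers is `2 * 4 ^ m`, with `m` the number of prime divisors of `D` up to units.  There is `c > 0`
such that for all large `X` at least `c X` Gaussian integers `D` of norm at most `X` have the property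
of the criterion. -/
theorem result :
    (∀ D : GaussianInt, Criterion D → ∀ (K : Type) [Field K] [NumberField K]
      (e : GaussianInt ≃+* 𝓞 K), TwoPart (E e D) ∧
        Nat.card (gen (E e D)).toAffine.Point = 4 ∧ Tam (E e D) = 2 * 4 ^ (primes D).ncard) ∧
    ∃ c : ℝ, 0 < c ∧ ∃ X₀ : ℕ, ∀ X : ℕ, X₀ ≤ X → c * X ≤ ((Twists X).ncard : ℝ) := by
  refine ⟨fun D hD K _ _ e => ?_, ?_⟩
  · have hg := (Pool.Agent.Y676.G2.good_iff D).2 hD
    exact ⟨two_part e hg, card_E e hg, Tam_E e hg⟩
  · obtain ⟨c, hc, X₀, h⟩ := Pool.Agent.Y699.positive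
    refine ⟨c, hc, X₀, fun X hX => (h X hX).trans ?_⟩
    have h1 : ((Pool.Agent.Y699.GB X : Finset GaussianInt) : Set GaussianInt) ⊆ Twists X := by
      intro D hD
      have h2 : D ∈ Pool.Agent.Y699.SB X ∧ Pool.Agent.Y699.Good D := by
        have h0 := Finset.mem_coe.1 hD
        unfold Pool.Agent.Y699.GB at h0
        classical
        exact Finset.mem_filter.1 h0
      have h3 := (Pool.Agent.Y699.mem_SB).1 h2.1
      refine ⟨(Pool.Agent.Y676.G2.good_iff D).1 h2.2, ?_⟩
      have h4 : D.norm.natAbs ≤ X := h3.1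
      omega
    have h5 := Set.ncard_le_ncard h1 (twists_finite X)
    rw [Set.ncard_coe_finset] at h5
    exact_mod_cast h5

end Pool.Agent.Results.MP_e996df_nt.PositiveProportionTwoPart
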