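import Pool.Agent.Y682.XT.Ram
import Pool.Agent.Y682.XT.Dsc
import Pool.Agent.Y405.XT.Det
import Pool.Agent.Y41.XT.L1
import Pool.Agent.Y125.XT.Res
import Pool.Agent.Y363.XT.Units
import Pool.Agent.Y363.XT.Mini
import Pool.Agent.Y884.XT.LK
import Pool.Agent.Y496.XT.Tor
import Pool.Agent.Y484.XT.TamK
import Pool.Agent.Y248.BSD14.Omega
import Pool.Agent.Y692.XT.Inert
import Pool.Agent.Y692.XT.Three

/-!
# The 2-part of the Birch and Swinnerton-Dyer conjecture for `X_0(14)` over fields of odd degree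

`E` is the modular curve `X_0(14)`, `y² + xy + y = x³ + 4x - 6`.  We prove the 2-part of the
conjecture of Birch and Swinnerton-Dyer for `E` over every subfield `K` of odd degree of the `q`-th
cyclotomic field, `q` prime to `14`, in which `2` and `7` are inert and whose narrow class number is
odd, if all the prime factors of `q` are ramified in all the subfields `F ≠ ℚ` of `K` (for instance
if `[K : ℚ]` is prime and `q` is the conductor, or if `q` is a power of a prime).  These assumptions
are verified for `q = 3^n`: the result is unconditional for all the layers of the cyclotomic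
`ℤ₃`-extension of `ℚ`.

The proof.  Analytic side: `τ(χ) L(E, χ⁻¹, 1)` is a period times a sum of modular symbols, and modulo
the primes above 2 the modular symbol of `E` is the sum of two functions of the sign of the
cyclotomic units (`E` has a rational point of order two and `a_3`, `a_5` are even): the sum is the
product of the twisted sum of the signs of the cyclotomic units and an Euler factor at `2` or `7`,
which is a unit since `2` and `7` are inert.  By the analytic class number formula for the cyclotomic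
units of `K` the twisted sums of the signs are units exactly if the narrow class number is odd.
The same formula gives the product of the Gauss sums and the discriminant.  Algebraic side: a descent
with the isogeny of degree two, where only the narrow class group enters.
-/

set_option autoImplicit false

open NumberField NumberField.InfinitePlace IsDedekindDomain WeierstrassCurve MeasureTheory

namespace Pool.Agent.Results.MP_e996df_nt.TwoPartOddDegree

open scoped Classical

open Pool.Agent.TH841.NF.D (Sha)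

open Pool.Agent.Y682 (NCl)

/-- The elliptic curve `X_0(14)`, with its global minimal equation
`y² + x y + y = x³ + 4 x - 6`. -/
def E : WeierstrassCurve ℤ := ⟨1, 0, 1, 4, -6⟩

/-- The curve given by the equation of `W` over the ring `R`. -/
abbrev base (W : WeierstrassCurve ℤ) (R : Type) [CommRing R] : WeierstrassCurve R :=
  W.map (Int.castRingHom R)

/-- The number of the affine points `(x, y)` over the ring `R`. -/
noncomputable def pts (W : WeierstrassCurve ℤ) (R : Type) [CommRing R] : ℕ :=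
  Nat.card {P : R × R // (base W R).toAffine.Equation P.1 P.2}

section

variable {K : Type} [Field K] [NumberField K]

/-- `a_v = N v + 1 - #W(k_v)`, the points over the residue field `k_v` counted with the point at
infinity. -/
noncomputable def a (W : WeierstrassCurve ℤ) (v : HeightOneSpectrum (𝓞 K)) : ℤ :=
  (Ideal.absNorm v.asIdeal : ℤ) - pts W (𝓞 K ⧸ v.asIdeal)

/-- The Euler factor of `L(W/K, s)` at `v` : `(1 - a_v N v^(-s) + N v^(1 - 2 s))⁻¹` if the
discriminant is a unit at `v`, and `(1 - a_v N v^(-s))⁻¹` otherwise. -/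
noncomputable def factor (W : WeierstrassCurve ℤ) (s : ℂ) (v : HeightOneSpectrum (𝓞 K)) : ℂ :=
  (1 - (a W v : ℂ) * (Ideal.absNorm v.asIdeal : ℂ) ^ (-s) +
    if ((W.Δ : ℤ) : 𝓞 K) ∈ v.asIdeal then 0 else (Ideal.absNorm v.asIdeal : ℂ) ^ (1 - 2 * s))⁻¹

/-- The equation is minimal at the finite place `v` of `K`: no change of variables over `K` that
keeps the coefficients integral at `v` decreases the valuation of the discriminant. -/
def MinimalAt (W : WeierstrassCurve ℤ) (v : HeightOneSpectrum (𝓞 K)) : Prop :=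
  ∀ C : VariableChange K, v.valuation K (C • base W K).a₁ ≤ 1 →
    v.valuation K (C • base W K).a₂ ≤ 1 → v.valuation K (C • base W K).a₃ ≤ 1 →
    v.valuation K (C • base W K).a₄ ≤ 1 → v.valuation K (C • base W K).a₆ ≤ 1 →
    v.valuation K (C • base W K).Δ ≤ v.valuation K (base W K).Δ

/-- `E⁰(K_v)`, the group of the points of `W` over the completion `K_v` with nonsingular reduction:
the points `(x, y)` where `x` is not integral, or one of the partial derivatives of
`y² + a₁ x y + a₃ y - x³ - a₂ x² - a₄ x - a₆` is a unit at `(x, y)`, and the point at infinity. -/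
noncomputable def nonsing (W : WeierstrassCurve ℤ) (v : HeightOneSpectrum (𝓞 K)) :
    AddSubgroup (base W (v.adicCompletion K)).toAffine.Point :=
  AddSubgroup.closure {P | ∀ x y h, P = Affine.Point.some x y h →
    1 < Valued.v x ∨ Valued.v (W.a₁ * y - (3 * x ^ 2 + 2 * W.a₂ * x + W.a₄)) = 1 ∨
      Valued.v (2 * y + W.a₁ * x + W.a₃) = 1}

/-- The Tamagawa number `c_v = [E(K_v) : E⁰(K_v)]` of a minimal equation. -/
noncomputable def c (W : WeierstrassCurve ℤ) (v : HeightOneSpectrum (𝓞 K)) : ℕ :=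
  (nonsing W v).index

end

section

variable (K : Type) [Field K] [NumberField K]

/-- The product of the Tamagawa numbers. -/
noncomputable def Tam (W : WeierstrassCurve ℤ) : ℕ := ∏ᶠ v : HeightOneSpectrum (𝓞 K), c W v

/-- The 2-primary part of the Tate-Shafarevich group over `K`. -/
def Sha2 (W : WeierstrassCurve ℤ) : Set (Sha (base W K)) := {x | ∃ n : ℕ, 2 ^ n • x = 0}

/-- The torsion subgroup of the group of the points over `K`. -/
def tors (W : WeierstrassCurve ℤ) : Set (base W K).toAffine.Point := {P | ∃ n : ℕ, 0 < n ∧ n • P = 0}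

/-- The rank of the group of the points over `K`. -/
noncomputable def rank (W : WeierstrassCurve ℤ) : ℕ := Module.finrank ℤ (base W K).toAffine.Point

end

/-- `4 x³ + b₂ x² + 2 b₄ x + b₆ = (2 y + a₁ x + a₃)²`, where `b₂ = a₁² + 4 a₂`,
`b₄ = 2 a₄ + a₁ a₃`, `b₆ = a₃² + 4 a₆`. -/
def cubic (W : WeierstrassCurve ℤ) {R : Type} [CommRing R] (x : R) : R :=
  4 * x ^ 3 + W.b₂ * x ^ 2 + 2 * W.b₄ * x + W.b₆

/-- `∫_{W(ℝ)} |ω|` with `ω = dx / (2 y + a₁ x + a₃)`, as an integral over `x`: two real points lie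
over each `x` with `cubic x > 0`. -/
noncomputable def realPeriod (W : WeierstrassCurve ℤ) : ℝ :=
  2 * ∫ x in {x : ℝ | 0 < cubic W x}, 1 / √(cubic W x)

/-- `2 ∫_{W(ℂ)} |ω ∧ ω̄|`, where `|ω ∧ ω̄| = du dv` in a local parameter `z = u + i v` with
`dz = ω`, as an integral over `x`: two points lie over a general `x`, and `|ω ∧ ω̄|` is the area
element of the plane of `x` divided by `|cubic x|`. -/
noncomputable def complexPeriod (W : WeierstrassCurve ℤ) : ℝ := 2 * (2 * ∫ x : ℂ, 1 / ‖cubic W x‖)

/-- The global period of an equation that is minimal at all finite places. -/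
noncomputable def Omega (K : Type) [Field K] [NumberField K] (W : WeierstrassCurve ℤ) : ℝ :=
  realPeriod W ^ nrRealPlaces K * complexPeriod W ^ nrComplexPlaces K

section proof

open Pool.Agent.Y682.XT

lemma E_disc : E.Δ = -21952 := by
  unfold E WeierstrassCurve.Δ WeierstrassCurve.b₂ WeierstrassCurve.b₄ WeierstrassCurve.b₆
    WeierstrassCurve.b₈
  norm_num

lemma disc_mem {K : Type} [Field K] [NumberField K] (v : HeightOneSpectrum (𝓞 K)) :
    ((E.Δ : ℤ) : 𝓞 K) ∈ v.asIdeal ↔ ((14 : ℤ) : 𝓞 K) ∈ v.asIdeal := by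
  have h2 : ((E.Δ : ℤ) : 𝓞 K) = -(((14 : ℤ) : 𝓞 K) ^ 3 * 8) := by
    rw [E_disc]; push_cast; norm_num
  have h3 : ((14 : ℤ) : 𝓞 K) = 2 * 7 := by push_cast; norm_num
  rw [h2, neg_mem_iff]
  constructor
  · intro h
    rcases v.isPrime.mem_or_mem h with h | h
    · exact v.isPrime.mem_of_pow_mem 3 h
    · rw [show (8 : 𝓞 K) = 2 ^ 3 by norm_num] at h
      rw [h3]
      exact Ideal.mul_mem_right _ _ (v.isPrime.mem_of_pow_mem 3 h)
  · intro h
    exact Ideal.mul_mem_right _ _ (Ideal.pow_mem_of_mem _ h 3 (by norm_num))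

lemma factor_eq {K : Type} [Field K] [NumberField K] (s : ℂ) :
    factor (K := K) E s = fE (K := K) s := by
  funext v
  have h1 : a E v = av v := rfl
  unfold factor fE
  rw [h1]
  simp only [disc_mem]

lemma c_eq {K : Type} [Field K] [NumberField K] (v : HeightOneSpectrum (𝓞 K)) :
    c E v = (E0 (v.adicCompletion K) Valued.v).index := rfl

lemma real_eq {P : PeriodPair} {Op Om : ℝ} (hOp : 0 < Op) (hOm : 0 < Om)
    (g2 : P.g₂ = -215 / 12) (g3 : P.g₃ = 5291 / 216)
    (hP : ∀ w : ℂ, w ∈ P.lattice ↔ ∃ a b : ℤ, 2 ∣ a - b ∧ w = a * Op + b * Om * Complex.I) :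
    realPeriod E = 2 * Op := by
  have h1 := Pool.Agent.Y248.BSD14.t P Op Om hOp hOm g2 g3 hP 1 (by norm_num) (by norm_num)
  have h2 : Pool.Agent.Y700.WM 1 = E := by
    unfold Pool.Agent.Y700.WM E
    norm_num
  rw [h2, Int.cast_one, Real.sqrt_one, div_one] at h1
  rw [← h1]
  unfold realPeriod Pool.Agent.Y700.Omega
  have h3 : ∀ x : ℝ, cubic E x = Pool.Agent.Y700.psi E x := fun x => rfl
  simp only [h3]
  rw [← integral_const_mul]
  refine integral_congr_ae (Filter.Eventually.of_forall fun x => ?_)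
  show 2 * (1 / √(Pool.Agent.Y700.psi E x)) = 2 / √(Pool.Agent.Y700.psi E x)
  rw [mul_one_div]

end proof

section alg

variable {K : Type} [Field K] [NumberField K]

lemma tors_eq [Finite (base E K).toAffine.Point] : tors K E = Set.univ := by
  ext P
  simp only [Set.mem_univ, iff_true]
  exact ⟨Nat.card (base E K).toAffine.Point, Nat.card_pos,
    card_nsmul_eq_zero' (G := (base E K).toAffine.Point) (x := P)⟩

lemma rank_eq [Finite (base E K).toAffine.Point] : rank K E = 0 := by
  unfold rank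
  apply Module.IsTorsion.finrank_eq_zero
  intro P
  refine ⟨⟨(Nat.card (base E K).toAffine.Point : ℤ), ?_⟩, ?_⟩
  · rw [mem_nonZeroDivisors_iff_ne_zero]
    exact_mod_cast Nat.card_pos.ne'
  · show (Nat.card (base E K).toAffine.Point : ℤ) • P = 0
    rw [natCast_zsmul]
    exact card_nsmul_eq_zero'

lemma sha_eq (h : ∀ s : Sha (base E K), 2 • s = 0 → s = 0) : Sha2 K E = {0} := by
  have key : ∀ (j : ℕ) (x : Sha (base E K)), 2 ^ j • x = 0 → x = 0 := by
    intro j
    induction j with
    | zero => intro x hx; rw [pow_zero, one_nsmul] at hx; exact hx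
    | succ j ih =>
      intro x hx
      rw [pow_succ, mul_nsmul] at hx
      exact ih x (h _ hx)
  ext x
  constructor
  · rintro ⟨k, hk⟩
    exact key k x hk
  · rintro rfl
    exact ⟨0, nsmul_zero _⟩

end alg

section main

open Pool.Agent.Y682.XT

/-- the result for one field -/
theorem two_part (q : ℕ) [NeZero q] (h1 : 1 < q) (hco : q.Coprime 14)
    (M : Type) [Field M] [NumberField M] [IsCyclotomicExtension {q} ℚ M]
    (K : IntermediateField ℚ M) (hodd : Odd (Module.finrank ℚ K)) (hs : SameP q M K)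
    (h2 : (Ideal.span {((2 : ℕ) : 𝓞 K)}).IsPrime) (h7 : (Ideal.span {((7 : ℕ) : 𝓞 K)}).IsPrime)
    (hN : Odd (Nat.card (NCl K))) :
    (∀ v : HeightOneSpectrum (𝓞 K), MinimalAt E v) ∧
    {v : HeightOneSpectrum (𝓞 K) | c E v ≠ 1}.Finite ∧
    ∃ L : ℂ → ℂ, Differentiable ℂ L ∧
      (∀ s : ℂ, 3 / 2 < s.re → HasProd (factor (K := K) E s) (L s)) ∧
      (analyticOrderAt L 1 = rank K E ∧ rank K E = 0 ∧ Finite (base E K).toAffine.Point) ∧
      ((Sha2 K E).Finite ∧ Sha2 K E = {0}) ∧
      ∃ r : ℚ, L 1 * √|(discr K : ℝ)| = r * Omega K E ∧ r ≠ 0 ∧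
        padicValRat 2 r = padicValRat 2
          ((Nat.card (Sha2 K E) * Tam K E : ℚ) / (Nat.card (tors K E) : ℚ) ^ 2) ∧
        padicValRat 2 r = -1 := by
  have hqo : Odd q := by
    have : q.Coprime 2 := Nat.Coprime.coprime_dvd_right (by norm_num) hco
    exact Nat.coprime_two_right.1 this
  have hre : IsRe q M K := re_of_odd hodd
  obtain ⟨φ, -⟩ := exists_phi q M
  have hreal : ∀ w : InfinitePlace K, w.IsReal := real_place (φ := φ) hre
  -- the units 2 and 7
  have hc2 : Nat.Coprime 2 q := (Nat.Coprime.coprime_dvd_right (by norm_num) hco).symm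
  have hc7 : Nat.Coprime 7 q := (Nat.Coprime.coprime_dvd_right (by norm_num) hco).symm
  have ht2 : ((ZMod.unitOfCoprime 2 hc2 : (ZMod q)ˣ) : ZMod q) = (2 : ℕ) :=
    ZMod.coe_unitOfCoprime _ _
  have ht7 : ((ZMod.unitOfCoprime 7 hc7 : (ZMod q)ˣ) : ZMod q) = (7 : ℕ) :=
    ZMod.coe_unitOfCoprime _ _
  have hg2 := gen_of_prime (K := K) (L := M) Pool.Agent.Y692.XT.inert Nat.prime_two ht2 h2
  have hg7 := gen_of_prime (K := K) (L := M) Pool.Agent.Y692.XT.inert (by norm_num : Nat.Prime 7) ht7 h7
  obtain ⟨s, P, Op, Om, hOp, hOm, g2, g3, hP, H, hv⟩ := exists_symb3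
  obtain ⟨G, hGd, hGp, r, hr, hr0, hrv⟩ := main_val H hv Pool.Agent.Y884.XT.s_lk
    Pool.Agent.Y405.XT.s_det Pool.Agent.Y41.XT.s_l1 Pool.Agent.Y125.XT.s_res
    Pool.Agent.Y363.XT.s_units hqo h1 hco hodd hre hs hN ht2 ht7 hg2 hg7
  obtain ⟨hfin, hsha⟩ := s_dsc K hreal hN h2 h7
  have hfin' : Finite (base E K).toAffine.Point := hfin
  have htors : tors K E = Set.univ := tors_eq
  have hrank : rank K E = 0 := rank_eq
  have hSha : Sha2 K E = {0} := sha_eq hsha
  obtain ⟨hcf, hcv⟩ := Pool.Agent.Y484.XT.s_tamk K hodd h2 h7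
  have htor := Pool.Agent.Y496.XT.s_tor K hodd hfin
  have hcplx : nrComplexPlaces K = 0 := nr_real (φ := φ) hre
  have hrp : nrRealPlaces K = Module.finrank ℚ K := by
    have := card_add_two_mul_card_eq_rank K
    rw [← this, hcplx, mul_zero, add_zero]
  have hOmega : Omega K E = (2 * Op) ^ Module.finrank ℚ K := by
    unfold Omega
    rw [real_eq hOp hOm g2 g3 hP, hcplx, hrp, pow_zero, mul_one]
  have hOmega0 : 0 < Omega K E := by
    rw [hOmega]; positivity
  have hG1 : G 1 ≠ 0 := by
    intro h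
    rw [h, zero_mul, ← hOmega] at hr
    have h3 : (r : ℂ) ≠ 0 := Rat.cast_ne_zero.2 hr0
    exact mul_ne_zero h3 (Complex.ofReal_ne_zero.2 hOmega0.ne') hr.symm
  have hval : padicValRat 2
      ((Nat.card (Sha2 K E) * Tam K E : ℚ) / (Nat.card (tors K E) : ℚ) ^ 2) = -1 := by
    have hT : padicValNat 2 (Tam K E) = 1 := hcv
    have hT0 : Tam K E ≠ 0 := by
      intro h; rw [h] at hT; simp at hT
    have hC : padicValNat 2 (Nat.card (base E K).toAffine.Point) = 1 := htor
    have hC0 : Nat.card (base E K).toAffine.Point ≠ 0 := Nat.card_pos.ne'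
    rw [hSha, htors, Nat.card_univ, Nat.card_unique, Nat.cast_one, one_mul]
    have : Fact (Nat.Prime 2) := ⟨Nat.prime_two⟩
    rw [padicValRat.div (Nat.cast_ne_zero.2 hT0) (pow_ne_zero _ (Nat.cast_ne_zero.2 hC0)),
      padicValRat.pow, padicValRat.of_nat, padicValRat.of_nat, hT, hC]
    norm_num
  refine ⟨fun v C h1 h2 h3 h4 h6 => Pool.Agent.Y363.XT.s_mini K v C h1 h2 h3 h4 h6, hcf, G, hGd,
    ?_, ⟨?_, hrank, hfin'⟩, ⟨by rw [hSha]; exact Set.finite_singleton 0, hSha⟩,
    r, ?_, hr0, ?_, hrv⟩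
  · intro z hz
    rw [factor_eq]
    exact hGp z hz
  · rw [hrank, Nat.cast_zero, analyticOrderAt_eq_zero]
    exact Or.inr hG1
  · rw [hOmega]
    exact hr
  · rw [hrv, hval]

end main

/-- the hypotheses hold for the powers of three -/
theorem three_hyp (n : ℕ) (M : Type) [Field M] [NumberField M]
    [IsCyclotomicExtension {3 ^ (n + 1)} ℚ M] (K : IntermediateField ℚ M)
    (hodd : Odd (Module.finrank ℚ K)) :
    (Ideal.span {((2 : ℕ) : 𝓞 K)}).IsPrime ∧ (Ideal.span {((7 : ℕ) : 𝓞 K)}).IsPrime ∧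
      Odd (Nat.card (NCl K)) := by
  have hc2 : Nat.Coprime 2 (3 ^ (n + 1)) := Nat.Coprime.pow_right _ (by norm_num)
  have hc7 : Nat.Coprime 7 (3 ^ (n + 1)) := Nat.Coprime.pow_right _ (by norm_num)
  have ht2 : ((ZMod.unitOfCoprime 2 hc2 : (ZMod (3 ^ (n + 1)))ˣ) : ZMod (3 ^ (n + 1))) = (2 : ℕ) :=
    ZMod.coe_unitOfCoprime _ _
  have ht7 : ((ZMod.unitOfCoprime 7 hc7 : (ZMod (3 ^ (n + 1)))ˣ) : ZMod (3 ^ (n + 1))) = (7 : ℕ) :=
    ZMod.coe_unitOfCoprime _ _
  refine ⟨Pool.Agent.Y682.XT.prime_of_gen Pool.Agent.Y692.XT.inert Nat.prime_two ht2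
      (Pool.Agent.Y682.XT.gen_two hodd (by rw [ht2]; norm_num)),
    Pool.Agent.Y682.XT.prime_of_gen Pool.Agent.Y692.XT.inert (by norm_num) ht7
      (Pool.Agent.Y682.XT.gen_seven hodd (by rw [ht7]; norm_num)),
    Pool.Agent.Y682.XT.ncl_three Pool.Agent.Y692.XT.three Pool.Agent.Y405.XT.s_det
      Pool.Agent.Y41.XT.s_l1 Pool.Agent.Y125.XT.s_res Pool.Agent.Y363.XT.s_units n M K hodd⟩

/-- **Main theorem.** Let `q > 1` be prime to `14` and let `K` be a subfield of odd degree of the
`q`-th cyclotomic field `M`.  Suppose that either `q` is a power of three (so that `K` is a layer of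
the cyclotomic `ℤ₃`-extension of `ℚ`), or `(2)` and `(7)` are prime ideals of `K`, the narrow class
number of `K` is odd, and either `q` is a power of a prime or every prime factor of `q` divides the
discriminant of every subfield `F ≠ ℚ` of `K` (for instance `q` is the conductor of `K` and `[K : ℚ]`
is prime).  Then the equation of `E = X_0(14)` is minimal at all finite places of `K`, and almost all
the Tamagawa numbers are `1`.  The `L`-function of `E` over `K` is entire; its order at `s = 1` is the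
rank of `E(K)`, both are zero; the 2-primary part of the Tate-Shafarevich group is finite, in fact
zero; and `L(E/K, 1) √|Δ_K| / Ω` is a nonzero rational number whose 2-adic valuation is that of
`#Ш(E/K)[2^∞] Tam(E/K) / (#E(K)_tors)²`, both are `-1`. -/
theorem result (q : ℕ) [NeZero q] (h1 : 1 < q) (hco : q.Coprime 14)
    (M : Type) [Field M] [NumberField M] [IsCyclotomicExtension {q} ℚ M]
    (K : IntermediateField ℚ M) (hodd : Odd (Module.finrank ℚ K))
    (hK : (∃ n : ℕ, q = 3 ^ n) ∨
      (Ideal.span {((2 : ℕ) : 𝓞 K)}).IsPrime ∧ (Ideal.span {((7 : ℕ) : 𝓞 K)}).IsPrime ∧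
      Odd (Nat.card (NCl K)) ∧
      (IsPrimePow q ∨ ∀ F : IntermediateField ℚ M, F ≤ K → F ≠ ⊥ →
        ∀ p : ℕ, p.Prime → p ∣ q → (p : ℤ) ∣ discr F)) :
    (∀ v : HeightOneSpectrum (𝓞 K), MinimalAt E v) ∧
    {v : HeightOneSpectrum (𝓞 K) | c E v ≠ 1}.Finite ∧
    ∃ L : ℂ → ℂ, Differentiable ℂ L ∧
      (∀ s : ℂ, 3 / 2 < s.re → HasProd (factor (K := K) E s) (L s)) ∧
      (analyticOrderAt L 1 = rank K E ∧ rank K E = 0 ∧ Finite (base E K).toAffine.Point) ∧
      ((Sha2 K E).Finite ∧ Sha2 K E = {0}) ∧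
      ∃ r : ℚ, L 1 * √|(discr K : ℝ)| = r * Omega K E ∧ r ≠ 0 ∧
        padicValRat 2 r = padicValRat 2
          ((Nat.card (Sha2 K E) * Tam K E : ℚ) / (Nat.card (tors K E) : ℚ) ^ 2) ∧
        padicValRat 2 r = -1 := by
  rcases hK with ⟨n, rfl⟩ | ⟨h2, h7, hN, hr⟩
  · obtain ⟨n, rfl⟩ : ∃ j, n = j + 1 := by
      rcases n with _ | n
      · rw [pow_zero] at h1
        exact absurd h1 (lt_irrefl _)
      · exact ⟨n, rfl⟩
    obtain ⟨h2, h7, hN⟩ := three_hyp n M K hodd
    exact two_part (3 ^ (n + 1)) h1 hco M K hodd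
      (Pool.Agent.Y682.XT.same_pp ⟨3, n + 1, Nat.prime_three.prime, Nat.succ_pos n, rfl⟩) h2 h7 hN
  · exact two_part q h1 hco M K hodd
      (hr.elim Pool.Agent.Y682.XT.same_pp Pool.Agent.Y682.XT.same_of_ram) h2 h7 hN

end Pool.Agent.Results.MP_e996df_nt.TwoPartOddDegree
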