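import Pool.Agent.Y699.R10
import Pool.Agent.Y699.Cls
import Pool.Agent.Y715.QT.An
import Pool.Agent.Y715.QT.Seq2
import Pool.Agent.Y715.QT.Stm2
import Pool.Agent.Y839.QT.Tam
import Pool.Agent.Y495.QT.Pri
import Pool.Agent.Y658.QT.Min
import Pool.Agent.Y813.QT.Lser
import Pool.Agent.Y968.QT.Sha
import Pool.Agent.Y421.QT.Val4
import Pool.Agent.Y261.QT.DES

/-!
# The 2-part of the strong conjecture of Birch and Swinnerton-Dyer for infinite groups of quartic twists
# of a positive proportion of the elliptic curves over `ℚ(i)` with `j`-invariant `1728`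

`K` is a number field with an isomorphism `e` of the ring `ℤ[i]` of Gaussian integers with its ring
of integers (so `K = ℚ(i)`).  Every elliptic curve over `K` with `j = 1728` is isomorphic to
`E_D : y² = x³ + D x` for exactly one Gaussian integer `D` that no fourth power of a prime divides.  We
prove for a positive proportion of all these `D`, ordered by norm: there is an infinite set `Q` of primes
such that for all finite subsets `S₄` of `Q`, all finite sets `S₂` of allowed primes (infinitely many), all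
exponents `a l ≤ 3` and `D' = D ∏ l ^ a l ∏ q ^ 2`: `E_D'(K)` has two elements, the 2-primary part of
`Ш(E_D'/K)` is trivial, `L(E_D'/K, s)` is entire, `L(E_D'/K, 1) ≠ 0`, and
`L(E_D'/K, 1) √|disc K| #E_D'(K)² / (Ω ∏ c_v)`, which should be the order of `Ш(E_D'/K)`, is a unit at
every valuation of `ℂ` above `2`.

The parts are in the files of helpers 261, 421, 495, 658, 813, 839, 968 (`QT`); the libraries are those
of helper699 (central values) and helper682 (descent).
-/

set_option autoImplicit false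

namespace Pool.Agent.Results.MP_e996df_nt.TwoPartTwistGroups

open NumberField IsDedekindDomain

/-- The curve `y² = x³ + D x`. -/
noncomputable def curve {K : Type} [Field K] [NumberField K] (e : GaussianInt ≃+* 𝓞 K)
    (D : GaussianInt) : WeierstrassCurve K :=
  ⟨0, 0, 0, algebraMap (𝓞 K) K (e D), 0⟩

open scoped Classical in
/-- The equation `E` is minimal at every finite place `v`, and `c v` is the Tamagawa number of `E` at
`v`: the index in `E(K_v)` of the subgroup of the points of nonsingular reduction. -/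
def IsTamagawa {K : Type} [Field K] [NumberField K] (E : WeierstrassCurve K)
    (c : HeightOneSpectrum (𝓞 K) → ℕ) : Prop :=
  (∀ v : HeightOneSpectrum (𝓞 K),
    (E.baseChange (v.adicCompletion K)).IsMinimal (v.adicCompletionIntegers K) ∧
    ∃ H : AddSubgroup (E.baseChange (v.adicCompletion K)).toAffine.Point,
      (∀ P, P ∈ H ↔ Pool.Agent.Y696.NonsingRed Valued.v (E.baseChange (v.adicCompletion K)) P) ∧
      H.index = c v) ∧
  {v | c v ≠ 1}.Finite

/-- `Λ` is the lattice of periods of the differential `dx / (2y + a₁x + a₃)` of the curve `E`, embedded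
in the complex numbers by `σ`. -/
def IsPeriodLattice {K : Type} [Field K] (E : WeierstrassCurve K) (σ : K →+* ℂ)
    (Λ : PeriodPair) : Prop :=
  Λ.g₂ = σ E.c₄ / 12 ∧ Λ.g₃ = σ E.c₆ / 216

/-- Twice the area of a fundamental parallelogram of the lattice. -/
noncomputable def period (Λ : PeriodPair) : ℝ := 2 * |((starRingEnd ℂ) Λ.ω₁ * Λ.ω₂).im|

/-- The conjecture of Birch and Swinnerton-Dyer, the formula up to units at the valuations above `2`,
for a curve `E` over an imaginary quadratic field `K` with `E(K)` finite and the 2-primary part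
of `Ш(E/K)` trivial:
`L(E/K, s)` is entire, `L(E/K, 1) ≠ 0`, and `L(E/K, 1) √|disc K| #E(K)² / (Ω ∏ c_v)` is a unit
at every valuation `w` of the field of complex numbers with `w 2 < 1`. -/
def TwoPart {K : Type} [Field K] [NumberField K] (E : WeierstrassCurve K) : Prop :=
  Finite E.toAffine.Point ∧
  (∀ (n : ℕ) (x : Pool.Agent.TH841.NF.D.Sha E), 2 ^ n • x = 0 → x = 0) ∧
  ∃ (L : ℂ → ℂ) (c : HeightOneSpectrum (𝓞 K) → ℕ),
    Differentiable ℂ L ∧
    (∀ s : ℂ, 3 / 2 < s.re →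
      LSeriesSummable ((fun n : ℤ => (n : ℂ)) ∘ E.LFunction) s ∧ L s = E.LSeries s) ∧
    L 1 ≠ 0 ∧
    IsTamagawa E c ∧
    ∀ σ : K →+* ℂ, (∃ Λ : PeriodPair, IsPeriodLattice E σ Λ) ∧
      ∀ Λ : PeriodPair, IsPeriodLattice E σ Λ →
        ∀ (Γ : Type) [LinearOrderedCommGroupWithZero Γ] (w : Valuation ℂ Γ), w 2 < 1 →
          w (L 1 * (Real.sqrt |(discr K : ℝ)| : ℝ) * (Nat.card E.toAffine.Point : ℂ) ^ 2 /
            ((period Λ : ℂ) * ((∏ᶠ v, c v : ℕ) : ℂ))) = 1

/-- `D` is not zero and no fourth power of a prime divides it. -/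
def FourthPowerFree (D : GaussianInt) : Prop := D ≠ 0 ∧ ∀ π : GaussianInt, Prime π → ¬ π ^ 4 ∣ D

/-- All the parameters `D` of norm at most `X`; each of them is one elliptic curve over `ℚ(i)` with
`j = 1728`, up to isomorphism. -/
def Family (X : ℕ) : Set GaussianInt := {D | FourthPowerFree D ∧ D.norm ≤ X}

/-- `d` is primary: `d ≡ 1` modulo `2 + 2i`. -/
def Primary (d : GaussianInt) : Prop := (⟨2, 2⟩ : GaussianInt) ∣ d - 1

/-- The primes whose squares may be used: `q` is a primary prime that does not divide `D`, of norm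
`1` modulo `8`, `D` is not a square modulo `q`, and the elements of `S₄` are prime to `q` and squares
modulo `q`. -/
def Allowed (D : GaussianInt) (S₄ : Finset GaussianInt) : Set GaussianInt :=
  {q | Prime q ∧ Primary q ∧ ¬ q ∣ D ∧ q.norm % 8 = 1 ∧ (¬ ∃ x : GaussianInt, q ∣ D - x ^ 2) ∧
    ∀ l ∈ S₄, ¬ q ∣ l ∧ ∃ x : GaussianInt, q ∣ l - x ^ 2}

/-- The parameters `D` in `Family X` for which there is an infinite set `Q` of primary primes not
dividing `D` such that for every finite subset `S₄` of `Q` the set `Allowed D S₄` is infinite, and for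
every finite subset `S₂` of `Allowed D S₄` and all exponents `a l ≤ 3`, the number
`D' = D ∏ l ^ a l ∏ q ^ 2` is divisible by no fourth power of a prime, and for `K = ℚ(i)` (every number
field `K` with an isomorphism `e` of `ℤ[i]` with its ring of integers) the curve
`E_D' : y² = x³ + D' x` over `K` has exactly two points over `K` and satisfies `TwoPart`. -/
def Proved (X : ℕ) : Set GaussianInt :=
  {D | D ∈ Family X ∧ ∃ Q : Set GaussianInt, Q.Infinite ∧
    (∀ l ∈ Q, Prime l ∧ Primary l ∧ ¬ l ∣ D) ∧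
    ∀ S₄ : Finset GaussianInt, (∀ l ∈ S₄, l ∈ Q) → (Allowed D S₄).Infinite ∧
      ∀ S₂ : Finset GaussianInt, (∀ q ∈ S₂, q ∈ Allowed D S₄) →
        ∀ a : GaussianInt → ℕ, (∀ l ∈ S₄, a l ≤ 3) →
          FourthPowerFree (D * ((∏ l ∈ S₄, l ^ a l) * ∏ q ∈ S₂, q ^ 2)) ∧
          ∀ (K : Type) [Field K] [NumberField K] (e : GaussianInt ≃+* 𝓞 K),
            Nat.card (curve e (D * ((∏ l ∈ S₄, l ^ a l) * ∏ q ∈ S₂, q ^ 2))).toAffine.Point = 2 ∧
            TwoPart (curve e (D * ((∏ l ∈ S₄, l ^ a l) * ∏ q ∈ S₂, q ^ 2)))}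

theorem primary_iff (d : GaussianInt) :
    Primary d ↔ Pool.Agent.H304R2.EC.A1.prim d := (Pool.Agent.W164.RC.prim_iff_dvd d).symm

theorem pp_iff (d : GaussianInt) : Prime d ∧ Primary d ↔ Pool.Agent.Y699.PP d :=
  ⟨fun h => ⟨h.1, (primary_iff d).1 h.2⟩, fun h => ⟨h.pr, (primary_iff d).2 h.prm⟩⟩

theorem allowed_eq (D : GaussianInt) (S₄ : Finset GaussianInt) :
    Allowed D S₄ = {q | Pool.Agent.Y715.QT.Alw D S₄ q} := by
  ext q
  constructor
  · rintro ⟨h1, h2, h3, h4, h5, h6⟩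
    exact ⟨(pp_iff q).1 ⟨h1, h2⟩, h3, h4, h5, h6⟩
  · intro h
    have h1 := (pp_iff q).2 h.pp
    exact ⟨h1.1, h1.2, h.nd, h.nm, h.ns, h.cr⟩

/-- Every elliptic curve over `ℚ(i)` with `j = 1728` is isomorphic to `y² = x³ + D x` for exactly one
`D` that no fourth power of a prime divides. -/
theorem classification {K : Type} [Field K] [NumberField K] (e : GaussianInt ≃+* 𝓞 K)
    (E : WeierstrassCurve K) [E.IsElliptic] (hj : E.j = 1728) :
    ∃! D : GaussianInt, FourthPowerFree D ∧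
      ∃ C : WeierstrassCurve.VariableChange K, C • E = curve e D := by
  let _ : Algebra GaussianInt K := ((algebraMap (𝓞 K) K).comp (e : GaussianInt →+* 𝓞 K)).toAlgebra
  have _ : IsFractionRing GaussianInt K := IsFractionRing.of_ringEquiv_left e (fun _ => rfl)
  exact Pool.Agent.Y699.cls1728 E hj

theorem family_finite (X : ℕ) : (Family X).Finite := by
  refine (Pool.Agent.Y699.fin_norm_le X).subset ?_
  rintro D ⟨-, h⟩
  have h0 := GaussianInt.norm_nonneg D
  show D.norm.natAbs ≤ X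
  omega

/-- There are at most `9 X` parameters of norm at most `X`. -/
theorem family_le {X : ℕ} (hX : 1 ≤ X) : (Family X).ncard ≤ 9 * X := by
  classical
  set s := Nat.sqrt X with hs
  have hs1 : 1 ≤ s := Nat.le_sqrt.2 (by omega)
  set B : Finset (ℤ × ℤ) := (Finset.Icc (-(s : ℤ)) s) ×ˢ (Finset.Icc (-(s : ℤ)) s) with hB
  have hinj : Set.InjOn (fun D : GaussianInt => (D.re, D.im)) (Family X) := by
    intro a _ b _ hab
    simp only [Prod.mk.injEq] at hab
    exact Zsqrtd.ext hab.1 hab.2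
  have hmaps : ∀ D ∈ Family X, (fun D : GaussianInt => (D.re, D.im)) D ∈ (B : Set (ℤ × ℤ)) := by
    rintro D ⟨-, h⟩
    have h1 : D.norm = D.re ^ 2 + D.im ^ 2 := by
      rw [Zsqrtd.norm_def]; ring
    have h4 : D.re.natAbs ≤ s := by
      rw [hs, Nat.le_sqrt']; zify; rw [sq_abs]; nlinarith [sq_nonneg D.im]
    have h5 : D.im.natAbs ≤ s := by
      rw [hs, Nat.le_sqrt']; zify; rw [sq_abs]; nlinarith [sq_nonneg D.re]
    rw [hB, Finset.mem_coe, Finset.mem_product, Finset.mem_Icc, Finset.mem_Icc]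
    refine ⟨⟨?_, ?_⟩, ⟨?_, ?_⟩⟩ <;> simp only <;> omega
  have h1 := Set.ncard_le_ncard_of_injOn _ hmaps hinj (Finset.finite_toSet B)
  rw [Set.ncard_coe_finset] at h1
  refine h1.trans ?_
  have h2 : (Finset.Icc (-(s : ℤ)) s).card = 2 * s + 1 := by
    rw [Int.card_Icc]; omega
  rw [hB, Finset.card_product, h2]
  have h3 : s * s ≤ X := Nat.sqrt_le X
  nlinarith

section GE

open Pool.Agent.Y715.QT (GE PE)

variable {ι : Type} [Fintype ι] [DecidableEq ι] {pr : ι → GaussianInt} {V : Finset ι} {ex : ι → ℕ}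

theorem PE_ne (h : GE pr V ex) : PE pr V ex ≠ 0 :=
  Finset.prod_ne_zero_iff.2 fun i _ => pow_ne_zero _ (h.pf.pp i).ne

theorem PE_ffree (h : GE pr V ex) : FourthPowerFree (PE pr V ex) := by
  classical
  refine ⟨PE_ne h, fun π hπ hd => ?_⟩
  have h1 : π ∣ PE pr V ex := (dvd_pow_self π (by norm_num)).trans hd
  obtain ⟨i, hi, hi2⟩ := (Prime.dvd_finsetProd_iff hπ _).1 h1
  have h3 : π ∣ pr i := hπ.dvd_of_dvd_pow hi2
  have h4 : Associated π (pr i) := hπ.associated_of_dvd (h.pf.pp i).pr h3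
  have h5 : pr i ^ 4 ∣ pr i ^ ex i * ∏ j ∈ V.erase i, pr j ^ ex j := by
    rw [Finset.mul_prod_erase V (fun j => pr j ^ ex j) hi]
    exact ((h4.symm.pow_pow (n := 4)).dvd).trans hd
  have h6 : ¬ pr i ∣ ∏ j ∈ V.erase i, pr j ^ ex j := by
    intro h7
    obtain ⟨j, hj, hj2⟩ := (Prime.dvd_finsetProd_iff (h.pf.pp i).pr _).1 h7
    have h8 := (h.pf.pp i).pr.dvd_of_dvd_pow hj2
    have h9 := (h.pf.pp i).eq_of_dvd (h.pf.pp j) h8
    exact (Finset.ne_of_mem_erase hj) (h.pf.inj h9).symm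
  have h7 : pr i ^ 4 ∣ pr i ^ ex i := (h.pf.pp i).pr.pow_dvd_of_dvd_mul_right 4 h6 h5
  have h8 : 4 ≤ ex i := (pow_dvd_pow_iff (h.pf.pp i).ne (h.pf.pp i).pr.not_isUnit).1 h7
  rcases h.ex i hi with h9 | h9 | h9 <;> omega

theorem no_sq (h : GE pr V ex) {K : Type} [Field K] [NumberField K] (e : GaussianInt ≃+* 𝓞 K)
    (r : K) : r ^ 2 ≠ -(algebraMap (𝓞 K) K (e (PE pr V ex))) := by
  intro hr
  have hint : IsIntegral (𝓞 K) r := by
    refine IsIntegral.of_pow (n := 2) (by norm_num) ?_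
    rw [hr, ← map_neg]
    exact isIntegral_algebraMap
  obtain ⟨a', ha'⟩ := IsIntegrallyClosed.isIntegral_iff.1 hint
  obtain ⟨a, rfl⟩ := e.surjective a'
  have hinj : Function.Injective (algebraMap (𝓞 K) K) := IsFractionRing.injective (𝓞 K) K
  have h1 : a * a = -PE pr V ex := by
    apply e.injective
    apply hinj
    rw [map_mul, map_mul, map_neg, map_neg, ha', ← sq, hr]
  have h2 := Pool.Agent.Y839.QT.PE_mod h
  have h3 : (a * a).re = a.re * a.re - a.im * a.im := by rw [Zsqrtd.re_mul]; ring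
  have h4 : (a * a).im = 2 * (a.re * a.im) := by rw [Zsqrtd.im_mul]; ring
  rw [h1, Zsqrtd.re_neg] at h3
  rw [h1, Zsqrtd.im_neg] at h4
  have h5 : (a.re * a.im) % 2 = 1 := by omega
  have h6 : a.re % 2 = 1 ∧ a.im % 2 = 1 := by
    rcases Int.emod_two_eq_zero_or_one a.re with h7 | h7 <;>
      rcases Int.emod_two_eq_zero_or_one a.im with h8 | h8 <;>
      simp [Int.mul_emod, h7, h8] at h5 ⊢
  have h7 := Int.emod_emod_of_dvd (a.re * a.re) (show (8 : ℤ) ∣ 8 from dvd_rfl)
  have h8 : ∀ x : ℤ, x % 2 = 1 → (x * x) % 8 = 1 := by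
    intro x hx
    have : x % 8 = 1 ∨ x % 8 = 3 ∨ x % 8 = 5 ∨ x % 8 = 7 := by omega
    rcases this with h | h | h | h <;> simp [Int.mul_emod, h]
  have h9 := h8 _ h6.1
  have h10 := h8 _ h6.2
  omega

/-- The criterion. -/
theorem curve_ge (min : Pool.Agent.Y715.QT.S_MIN) (lser : Pool.Agent.Y715.QT.S_LSER)
    (sha : Pool.Agent.Y715.QT.S_SHA) (val : Pool.Agent.Y715.QT.S_VAL)
    (h : GE pr V ex) (K : Type) [Field K]
    [NumberField K] (e : GaussianInt ≃+* 𝓞 K) :
    Nat.card (curve e (PE pr V ex)).toAffine.Point = 2 ∧ TwoPart (curve e (PE pr V ex)) := by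
  have han := Pool.Agent.Y715.QT.an ι pr h.pf V ex h.ex h.wt h.ker h.tq
  have hc : Nat.card (curve e (PE pr V ex)).toAffine.Point = 2 := by
    let _ : Algebra GaussianInt K := ((algebraMap (𝓞 K) K).comp (e : GaussianInt →+* 𝓞 K)).toAlgebra
    have _ : IsFractionRing GaussianInt K := IsFractionRing.of_ringEquiv_left e (fun _ => rfl)
    exact Pool.Agent.Y699.card_pts4 (no_sq h e) two_ne_zero
      (fun x y hxy => Pool.Agent.Y261.QT.des ι pr h.pf V ex h.ex h.wt h.ker h.tq K x y hxy)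
  have hD0 : algebraMap (𝓞 K) K (e (PE pr V ex)) ≠ 0 := Pool.Agent.Y715.Z.em0_ne e (PE_ne h)
  have hT : Pool.Agent.Y682.IsT (curve e (PE pr V ex)) 0 (Pool.Agent.Y715.Z.em0 e (PE pr V ex)) :=
    { h1 := rfl, h2 := rfl, h3 := rfl, h4 := rfl, h6 := rfl, hB := hD0
      hD := by
        rw [zero_pow two_ne_zero, zero_sub, neg_ne_zero]
        exact mul_ne_zero (by norm_num) hD0 }
  obtain ⟨htam, hcf, hcp⟩ := Pool.Agent.Y839.QT.tam ι pr V ex h K e
  have hcT : ∀ v, Pool.Agent.Y715.Z.cT e (PE pr V ex) v =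
      (open scoped Classical in if e (PE pr V ex) ∈ v.asIdeal then 2 else 1) := fun v => rfl
  refine ⟨hc, Nat.finite_of_card_ne_zero (by rw [hc]; norm_num),
    fun n x hx => sha ι pr V ex h K e _ hT n x hx,
    Pool.Agent.Y699.LG (Pool.Agent.Y699.XX4 h.pf V ex),
    Pool.Agent.Y715.Z.cT e (PE pr V ex),
    Pool.Agent.Y699.LG_diff han.1,
    fun s hs => lser ι pr V ex h K e s hs,
    Pool.Agent.Y699.LG_one han.2.2.1,
    ⟨fun v => ?_, hcf⟩, fun σ => ?_⟩
  · have hbc : (curve e (PE pr V ex)).baseChange (v.adicCompletion K) = Pool.Agent.Y715.Z.q4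
        (algebraMap K (v.adicCompletion K) (Pool.Agent.Y715.Z.em0 e (PE pr V ex))) :=
      Pool.Agent.Y715.Z.q4_map _ _
    rw [hbc]
    exact ⟨min ι pr V ex h K e v, htam v⟩
  · have h4 : σ (curve e (PE pr V ex)).c₄ / 12 = -4 * σ (Pool.Agent.Y715.Z.em0 e (PE pr V ex)) := by
      have h5 : (curve e (PE pr V ex)).c₄ = -48 * Pool.Agent.Y715.Z.em0 e (PE pr V ex) :=
        Pool.Agent.Y715.Z.q4_c₄ _
      rw [h5, map_mul, map_neg, map_ofNat]
      ring
    have h6 : σ (curve e (PE pr V ex)).c₆ / 216 = 0 := by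
      have h7 : (curve e (PE pr V ex)).c₆ = 0 := by
        simp only [curve, WeierstrassCurve.c₆, WeierstrassCurve.b₂, WeierstrassCurve.b₄,
          WeierstrassCurve.b₆]
        ring
      rw [h7, map_zero, zero_div]
    have hδ := Pool.Agent.Y715.Z.norm_emb e σ (PE pr V ex)
    have hσ0 : σ (Pool.Agent.Y715.Z.em0 e (PE pr V ex)) ≠ 0 := by
      rw [Ne, map_eq_zero]; exact hD0
    refine ⟨?_, fun Λ hΛ Γ _ w hw => ?_⟩
    · obtain ⟨Λ, h8, h9⟩ := Pool.Agent.Y715.Z.per_ex hσ0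
      exact ⟨Λ, by rw [h4]; exact h8, by rw [h6]; exact h9⟩
    · have h10 := val ι pr V ex h _ hδ Λ (hΛ.1.trans h4) (hΛ.2.trans h6) Γ w hw
      rw [Pool.Agent.Y715.Z.sqrt_discr e, hc, hcp]
      refine Eq.trans ?_ h10
      unfold period
      congr 1
      push_cast
      norm_num

end GE

theorem good_groups (pri : Pool.Agent.Y715.QT.S_PRI) (min : Pool.Agent.Y715.QT.S_MIN)
    (lser : Pool.Agent.Y715.QT.S_LSER)
    (sha : Pool.Agent.Y715.QT.S_SHA) (val : Pool.Agent.Y715.QT.S_VAL) {D : GaussianInt}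
    (hg : Pool.Agent.Y699.Good4 D) :
    ∃ Q : Set GaussianInt, Q.Infinite ∧ (∀ l ∈ Q, Prime l ∧ Primary l ∧ ¬ l ∣ D) ∧
    ∀ S₄ : Finset GaussianInt, (∀ l ∈ S₄, l ∈ Q) → (Allowed D S₄).Infinite ∧
      ∀ S₂ : Finset GaussianInt, (∀ q ∈ S₂, q ∈ Allowed D S₄) →
        ∀ a : GaussianInt → ℕ, (∀ l ∈ S₄, a l ≤ 3) →
          FourthPowerFree (D * ((∏ l ∈ S₄, l ^ a l) * ∏ q ∈ S₂, q ^ 2)) ∧
          ∀ (K : Type) [Field K] [NumberField K] (e : GaussianInt ≃+* 𝓞 K),
            Nat.card (curve e (D * ((∏ l ∈ S₄, l ^ a l) * ∏ q ∈ S₂, q ^ 2))).toAffine.Point = 2 ∧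
            TwoPart (curve e (D * ((∏ l ∈ S₄, l ^ a l) * ∏ q ∈ S₂, q ^ 2))) := by
  classical
  have hD := hg.ps.ne
  obtain ⟨p1, hp1⟩ := Pool.Agent.Y715.QT.exists_p1 hg
  obtain ⟨Q, hQ1, hQ2, hQ3⟩ := Pool.Agent.Y715.QT.exists_set pri hD hp1
  refine ⟨Q, hQ1, fun l hl => ?_, fun S₄ hS₄ => ⟨?_, fun S₂ hS₂ a ha => ?_⟩⟩
  · have h1 := (pp_iff l).2 (hQ2 l hl).1
    exact ⟨h1.1, h1.2, (hQ2 l hl).2⟩
  · rw [allowed_eq]
    exact Pool.Agent.Y715.QT.alw_infinite pri hg hp1 (hQ3 S₄ hS₄)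
  · have hA : Pool.Agent.Y715.QT.Adm2 D p1 S₄ S₂ :=
      Pool.Agent.Y715.QT.adm2_of (hQ3 S₄ hS₄) fun q hq => by
        have h1 := hS₂ q hq
        rw [allowed_eq] at h1
        exact h1
    set a' : GaussianInt → ℕ := fun z => if z ∈ S₄ then a z else 2 with ha'
    have he : Pool.Agent.Y715.QT.Exq S₄ S₂ a' := by
      constructor
      · intro l hl
        rw [ha']
        simp only [if_pos hl]
        have := ha l hl
        omega
      · intro q hq
        have h4 : q ∉ S₄ := fun h => Finset.disjoint_left.1 hA.dj h hq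
        rw [ha']
        simp only [if_neg h4]
        right
        trivial
    have hGE : Pool.Agent.Y715.QT.GE (Pool.Agent.Y715.QT.px D (S₄ ∪ S₂))
        (Pool.Agent.Y715.QT.VV D (S₄ ∪ S₂) a') (Pool.Agent.Y715.QT.ex D (S₄ ∪ S₂) a') :=
      { pf := Pool.Agent.Y715.QT.px2_PF hD hA
        ex := Pool.Agent.Y715.QT.ex2_cases he
        wt := Pool.Agent.Y715.QT.Wt_ex2 hg hA he
        ker := Pool.Agent.Y715.QT.hker_ex2 hg hA he hp1
        tq := Pool.Agent.Y715.QT.hT_ex2 hg hA he hp1 }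
    have hPE : Pool.Agent.Y715.QT.PE (Pool.Agent.Y715.QT.px D (S₄ ∪ S₂))
        (Pool.Agent.Y715.QT.VV D (S₄ ∪ S₂) a') (Pool.Agent.Y715.QT.ex D (S₄ ∪ S₂) a') =
        D * ((∏ l ∈ S₄, l ^ a l) * ∏ q ∈ S₂, q ^ 2) := by
      unfold Pool.Agent.Y715.QT.PE
      rw [Pool.Agent.Y715.QT.prod_ex2 hg hA]
      congr 2
      · refine Finset.prod_congr rfl fun l hl => ?_
        rw [ha']
        simp only [if_pos hl]
      · refine Finset.prod_congr rfl fun q hq => ?_
        have h4 : q ∉ S₄ := fun h => Finset.disjoint_left.1 hA.dj h hq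
        rw [ha']
        simp only [if_neg h4]
    rw [← hPE]
    exact ⟨PE_ffree hGE, fun K _ _ e => curve_ge min lser sha val hGE K e⟩

/-- **Main theorem.**  Let `K = ℚ(i)`.  There is `c > 0` such that for all large `X` at least the
proportion `c` of all Gaussian integers `D` of norm at most `X` that no fourth power of a prime divides,
and at least `c X` of them, have the following property.  There is an infinite set `Q` of primes such
that for every finite subset `S₄` of `Q` there are infinitely many allowed primes, and for every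
finite set `S₂` of allowed primes, all exponents `a l ≤ 3` and `D' = D ∏ l ^ a l ∏ q ^ 2`, the curve
`E_D' : y² = x³ + D' x` over `K` satisfies: `E_D'(K)` has exactly two elements, the 2-primary part of
`Ш(E_D'/K)` is trivial, `L(E_D'/K, s)` is entire with `L(E_D'/K, 1) ≠ 0`, and
`L(E_D'/K, 1) √|disc K| #E_D'(K)² / (Ω ∏ c_v)` is a unit at every valuation above `2`. -/
theorem result : ∃ c : ℝ, 0 < c ∧ ∃ X₀ : ℕ, ∀ X : ℕ, X₀ ≤ X →
    c * ((Family X).ncard : ℝ) ≤ ((Proved X).ncard : ℝ) ∧ c * X ≤ ((Proved X).ncard : ℝ) := by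
  obtain ⟨c, hc, X₀, h⟩ := Pool.Agent.Y699.positive₄
  have key : ∀ X : ℕ, X₀ ≤ X → c * X ≤ ((Proved X).ncard : ℝ) := by
    intro X hX
    refine (h X hX).trans ?_
    have h1 : ((Pool.Agent.Y699.GB₄ X : Finset GaussianInt) : Set GaussianInt) ⊆ Proved X := by
      intro D hD
      have h2 : D ∈ Pool.Agent.Y699.SB X ∧ Pool.Agent.Y699.Good4 D := by
        have h0 := Finset.mem_coe.1 hD
        unfold Pool.Agent.Y699.GB₄ at h0
        classical
        exact Finset.mem_filter.1 h0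
      have h3 := (Pool.Agent.Y699.mem_SB).1 h2.1
      refine ⟨⟨⟨h3.2.ne, fun π hπ h5 => ?_⟩, ?_⟩, 
        good_groups Pool.Agent.Y495.QT.pri Pool.Agent.Y658.QT.min
          (Pool.Agent.Y813.QT.lser Pool.Agent.Y658.QT.min) Pool.Agent.Y968.QT.sha
          Pool.Agent.Y421.QT.val h2.2⟩
      · exact hπ.not_isUnit (h3.2.sqf π (dvd_trans ⟨π ^ 2, by ring⟩ h5))
      · have h4 : D.norm.natAbs ≤ X := h3.1
        omega
    have h5 := Set.ncard_le_ncard h1 ((family_finite X).subset fun D hD => hD.1)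
    rw [Set.ncard_coe_finset] at h5
    exact_mod_cast h5
  refine ⟨c / 9, by positivity, max X₀ 1, fun X hX => ?_⟩
  have hX0 : X₀ ≤ X := (le_max_left _ _).trans hX
  have hX1 : 1 ≤ X := (le_max_right _ _).trans hX
  have h1 := key X hX0
  have h2 : ((Family X).ncard : ℝ) ≤ 9 * X := by exact_mod_cast family_le hX1
  have h3 : (0 : ℝ) ≤ X := Nat.cast_nonneg X
  constructor
  · calc c / 9 * ((Family X).ncard : ℝ) ≤ c / 9 * (9 * X) :=
          mul_le_mul_of_nonneg_left h2 (by positivity)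
      _ = c * X := by ring
      _ ≤ _ := h1
  · calc c / 9 * (X : ℝ) ≤ c * X := by nlinarith
      _ ≤ _ := h1

end Pool.Agent.Results.MP_e996df_nt.TwoPartTwistGroups
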