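import Pool.Agent.Y702.L.Main
import Pool.Agent.Y702.F.Tam
import Pool.Agent.Y809.BS.Sel4
import Pool.Agent.Y809.BS.Desc
import Pool.Agent.Y809.BS.Inv
import Pool.Agent.Y809.BS.Kum2
import Pool.Agent.Y154.NPar
import Pool.Agent.Y154.KUnr
import Pool.Agent.Y180.Y702.SCubic
import Pool.Agent.Y852.Two
import Pool.Agent.Y419.PR.Perr
import Pool.Agent.Y474.PERC
import Pool.Agent.Y125.TamG

/-!
# The 2-part of the Birch and Swinnerton-Dyer conjecture for `X_0(11)` over abelian 2-extensions

`E` is the modular curve `X_0(11)`, `y² + y = x³ - x² - 10 x - 20`, and `K` is a subfield of degree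
`2^n` of the `m`-th cyclotomic field, where `m` is squarefree, prime to `22`, and `a_l(E)` is odd for
all primes `l` that divide `m` (this holds for `l = 3, 5, 23, 31, 37, 59, ...`, the primes of a set of
density one third).  We prove the 2-part of the Birch and Swinnerton-Dyer conjecture for `E` over `K`.

The proof.  Analytic side: the parametrisation of `X_0(11)` gives the coefficients of the newform of
level 11 as the numbers `a_l(E)` and its period lattice as the lattice of `E`.  Hence `L(E/K, s)`, the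
product of the twists `L(E, χ, s)` over the characters `χ` of `K`, is entire, and
`τ(χ) L(E, χ⁻¹, 1)` is a period times an algebraic number; modulo the prime above 2 of the field of the
values of `χ` all these numbers are congruent to a sum of modular symbols that does not depend on `χ`
and is `∏ (a_l - 2)` up to a unit, so they are units.  Algebraic side: a nonzero Selmer group over the
2-extension `K` has a nonzero element fixed by `Gal(K/ℚ)`, which comes from `ℚ` since `E(K)` has no
point of order two; it gives a class in the cubic field of discriminant `-44`, unramified at all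
places, also at those over `m` since `E` has no points of order two modulo `l`, and a computation in
this field excludes it.
-/

set_option autoImplicit false

open NumberField NumberField.InfinitePlace IsDedekindDomain WeierstrassCurve MeasureTheory

namespace Pool.Agent.Results.MP_e996df_nt.TwoPartX011

open scoped Classical

open Pool.Agent.TH841.NF.D (Sha)

/-- The elliptic curve `X_0(11)`, with its global minimal equation
`y² + y = x³ - x² - 10 x - 20`. -/
def E : WeierstrassCurve ℤ := ⟨0, -1, 1, -10, -20⟩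

/-- The curve given by the equation of `W` over the ring `R`. -/
abbrev base (W : WeierstrassCurve ℤ) (R : Type) [CommRing R] : WeierstrassCurve R :=
  W.map (Int.castRingHom R)

/-- The number of the affine points `(x, y)` over the ring `R`. -/
noncomputable def pts (W : WeierstrassCurve ℤ) (R : Type) [CommRing R] : ℕ :=
  Nat.card {P : R × R // (base W R).toAffine.Equation P.1 P.2}

section

variable {K : Type} [Field K] [NumberField K]

/-- `a_v = N v + 1 - #W(k_v)`, the points over the residue field `k_v` counted with the point at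
infinity. -/
noncomputable def a (W : WeierstrassCurve ℤ) (v : HeightOneSpectrum (𝓞 K)) : ℤ :=
  (Ideal.absNorm v.asIdeal : ℤ) - pts W (𝓞 K ⧸ v.asIdeal)

/-- The Euler factor of `L(W/K, s)` at `v` : `(1 - a_v N v^(-s) + N v^(1 - 2 s))⁻¹` if the
discriminant is a unit at `v`, and `(1 - a_v N v^(-s))⁻¹` otherwise. -/
noncomputable def factor (W : WeierstrassCurve ℤ) (s : ℂ) (v : HeightOneSpectrum (𝓞 K)) : ℂ :=
  (1 - (a W v : ℂ) * (Ideal.absNorm v.asIdeal : ℂ) ^ (-s) +
    if ((W.Δ : ℤ) : 𝓞 K) ∈ v.asIdeal then 0 else (Ideal.absNorm v.asIdeal : ℂ) ^ (1 - 2 * s))⁻¹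

/-- The equation is minimal at the finite place `v` of `K`: no change of variables over `K` that
keeps the coefficients integral at `v` decreases the valuation of the discriminant. -/
def MinimalAt (W : WeierstrassCurve ℤ) (v : HeightOneSpectrum (𝓞 K)) : Prop :=
  ∀ C : VariableChange K, v.valuation K (C • base W K).a₁ ≤ 1 →
    v.valuation K (C • base W K).a₂ ≤ 1 → v.valuation K (C • base W K).a₃ ≤ 1 →
    v.valuation K (C • base W K).a₄ ≤ 1 → v.valuation K (C • base W K).a₆ ≤ 1 →
    v.valuation K (C • base W K).Δ ≤ v.valuation K (base W K).Δ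

/-- `E⁰(K_v)`, the group of the points of `W` over the completion `K_v` with nonsingular reduction:
the points `(x, y)` where `x` is not integral, or one of the partial derivatives of
`y² + a₁ x y + a₃ y - x³ - a₂ x² - a₄ x - a₆` is a unit at `(x, y)`, and the point at infinity. -/
noncomputable def nonsing (W : WeierstrassCurve ℤ) (v : HeightOneSpectrum (𝓞 K)) :
    AddSubgroup (base W (v.adicCompletion K)).toAffine.Point :=
  AddSubgroup.closure {P | ∀ x y h, P = Affine.Point.some x y h →
    1 < Valued.v x ∨ Valued.v (W.a₁ * y - (3 * x ^ 2 + 2 * W.a₂ * x + W.a₄)) = 1 ∨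
      Valued.v (2 * y + W.a₁ * x + W.a₃) = 1}

/-- The Tamagawa number `c_v = [E(K_v) : E⁰(K_v)]` of a minimal equation. -/
noncomputable def c (W : WeierstrassCurve ℤ) (v : HeightOneSpectrum (𝓞 K)) : ℕ :=
  (nonsing W v).index

end

section

variable (K : Type) [Field K] [NumberField K]

/-- The product of the Tamagawa numbers. -/
noncomputable def Tam (W : WeierstrassCurve ℤ) : ℕ := ∏ᶠ v : HeightOneSpectrum (𝓞 K), c W v

/-- The 2-primary part of the Tate-Shafarevich group over `K`. -/
def Sha2 (W : WeierstrassCurve ℤ) : Set (Sha (base W K)) := {x | ∃ n : ℕ, 2 ^ n • x = 0}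

/-- The torsion subgroup of the group of the points over `K`. -/
def tors (W : WeierstrassCurve ℤ) : Set (base W K).toAffine.Point := {P | ∃ n : ℕ, 0 < n ∧ n • P = 0}

/-- The rank of the group of the points over `K`. -/
noncomputable def rank (W : WeierstrassCurve ℤ) : ℕ := Module.finrank ℤ (base W K).toAffine.Point

end

/-- `4 x³ + b₂ x² + 2 b₄ x + b₆ = (2 y + a₁ x + a₃)²`, where `b₂ = a₁² + 4 a₂`,
`b₄ = 2 a₄ + a₁ a₃`, `b₆ = a₃² + 4 a₆`. -/
def cubic (W : WeierstrassCurve ℤ) {R : Type} [CommRing R] (x : R) : R :=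
  4 * x ^ 3 + W.b₂ * x ^ 2 + 2 * W.b₄ * x + W.b₆

/-- `∫_{W(ℝ)} |ω|` with `ω = dx / (2 y + a₁ x + a₃)`, as an integral over `x`: two real points lie
over each `x` with `cubic x > 0`. -/
noncomputable def realPeriod (W : WeierstrassCurve ℤ) : ℝ :=
  2 * ∫ x in {x : ℝ | 0 < cubic W x}, 1 / √(cubic W x)

/-- `2 ∫_{W(ℂ)} |ω ∧ ω̄|`, where `|ω ∧ ω̄| = du dv` in a local parameter `z = u + i v` with
`dz = ω`, as an integral over `x`: two points lie over a general `x`, and `|ω ∧ ω̄|` is the area
element of the plane of `x` divided by `|cubic x|`. -/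
noncomputable def complexPeriod (W : WeierstrassCurve ℤ) : ℝ := 2 * (2 * ∫ x : ℂ, 1 / ‖cubic W x‖)

/-- The global period of an equation that is minimal at all finite places. -/
noncomputable def Omega (K : Type) [Field K] [NumberField K] (W : WeierstrassCurve ℤ) : ℝ :=
  realPeriod W ^ nrRealPlaces K * complexPeriod W ^ nrComplexPlaces K

section proof

open Pool.Agent.Y702

lemma pts_eq (R : Type) [CommRing R] : pts E R = L.npt R := by
  unfold pts L.npt
  refine Nat.card_congr (Equiv.subtypeEquivRight fun x => ?_)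
  rw [WeierstrassCurve.Affine.equation_iff]
  unfold base E
  simp only [WeierstrassCurve.map, eq_intCast]
  push_cast
  constructor
  · intro h
    linear_combination h
  · intro h
    linear_combination h

lemma disc_mem {K : Type} [Field K] [NumberField K] (v : HeightOneSpectrum (𝓞 K)) :
    ((E.Δ : ℤ) : 𝓞 K) ∈ v.asIdeal ↔ (11 : 𝓞 K) ∈ v.asIdeal := by
  have h : E.Δ = -161051 := P.s_min11.2.2.1
  have h2 : ((E.Δ : ℤ) : 𝓞 K) = -((11 : 𝓞 K) ^ 5) := by
    rw [h]; push_cast; norm_num
  rw [h2, neg_mem_iff]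
  exact ⟨fun h => v.isPrime.mem_of_pow_mem 5 h, fun h => Ideal.pow_mem_of_mem _ h 5 (by norm_num)⟩

lemma factor_eq {K : Type} [Field K] [NumberField K] (s : ℂ) :
    factor (K := K) E s = L.fE (K := K) s := by
  funext v
  have h1 : a E v = L.av v := by
    unfold a L.av
    rw [pts_eq]
  unfold factor L.fE
  rw [h1]
  simp only [disc_mem]

lemma cubic_eq {R : Type} [CommRing R] (x : R) :
    cubic E x = 4 * x ^ 3 - 4 * x ^ 2 - 40 * x - 79 := by
  unfold cubic E WeierstrassCurve.b₂ WeierstrassCurve.b₄ WeierstrassCurve.b₆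
  push_cast
  ring

lemma c_eq {K : Type} [Field K] [NumberField K] (v : HeightOneSpectrum (𝓞 K)) :
    c E v = Fn.tam v := rfl

lemma val_zero (N : ℤ) (hN : Odd N) (ε : ℚ) (hε : ε = 1 ∨ ε = -1) :
    padicValRat 2 (ε * (|(N : ℚ)| / 5)) = 0 := by
  have : Fact (Nat.Prime 2) := ⟨Nat.prime_two⟩
  have hN0 : N ≠ 0 := by
    rintro rfl
    exact absurd hN (by decide)
  have h1 : padicValRat 2 |(N : ℚ)| = 0 := by
    have e : |(N : ℚ)| = ((N.natAbs : ℕ) : ℚ) := by
      rw [Nat.cast_natAbs, Int.cast_abs]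
    rw [e, padicValRat.of_nat]
    have : ¬ 2 ∣ N.natAbs := by
      intro h
      exact (Int.not_even_iff_odd.2 hN) (even_iff_two_dvd.2 (Int.natCast_dvd.2 h))
    rw [padicValNat.eq_zero_of_not_dvd this]
    rfl
  have h5 : padicValRat 2 (5 : ℚ) = 0 := by
    have : padicValRat 2 ((5 : ℕ) : ℚ) = 0 := by
      rw [padicValRat.of_nat, padicValNat.eq_zero_of_not_dvd (by norm_num)]
      rfl
    exact_mod_cast this
  have hNa : |(N : ℚ)| ≠ 0 := abs_ne_zero.2 (Int.cast_ne_zero.2 hN0)
  have h2 : padicValRat 2 (|(N : ℚ)| / 5) = 0 := by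
    rw [padicValRat.div hNa (by norm_num), h1, h5, sub_zero]
  rcases hε with rfl | rfl
  · rw [one_mul]; exact h2
  · rw [neg_one_mul, padicValRat.neg]; exact h2

end proof

section alg

variable {K : Type} [Field K] [NumberField K]

lemma tors_eq [Finite (base E K).toAffine.Point] : tors K E = Set.univ := by
  ext P
  simp only [Set.mem_univ, iff_true]
  exact ⟨Nat.card (base E K).toAffine.Point, Nat.card_pos,
    card_nsmul_eq_zero' (G := (base E K).toAffine.Point) (x := P)⟩

lemma rank_eq [Finite (base E K).toAffine.Point] : rank K E = 0 := by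
  unfold rank
  apply Module.IsTorsion.finrank_eq_zero
  intro P
  refine ⟨⟨(Nat.card (base E K).toAffine.Point : ℤ), ?_⟩, ?_⟩
  · rw [mem_nonZeroDivisors_iff_ne_zero]
    exact_mod_cast Nat.card_pos.ne'
  · show (Nat.card (base E K).toAffine.Point : ℤ) • P = 0
    rw [natCast_zsmul]
    exact card_nsmul_eq_zero'

lemma sha_eq (h : ∀ s : Sha (base E K), 2 • s = 0 → s = 0) : Sha2 K E = {0} := by
  have key : ∀ (j : ℕ) (x : Sha (base E K)), 2 ^ j • x = 0 → x = 0 := by
    intro j
    induction j with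
    | zero => intro x hx; rw [pow_zero, one_nsmul] at hx; exact hx
    | succ j ih =>
      intro x hx
      rw [pow_succ, mul_nsmul] at hx
      exact ih x (h _ hx)
  ext x
  constructor
  · rintro ⟨k, hk⟩
    exact key k x hk
  · rintro rfl
    exact ⟨0, nsmul_zero _⟩

lemma c_one (htamg : Pool.Agent.Y702.S_TAMG) (v : HeightOneSpectrum (𝓞 K))
    (h : ((11 : ℕ) : 𝓞 K) ∉ v.asIdeal) : c E v = 1 :=
  Pool.Agent.Y702.Fn.tam_one htamg v h

end alg


/-- **Main theorem.** Let `m` be squarefree and prime to `22`, with `a_l(E)` odd for all primes `l`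
that divide `m`, and let `K` be a subfield of degree `2^n` of the `m`-th cyclotomic field `M`.  The
equation of `E = X_0(11)` is minimal at all finite places of `K`, and almost all the Tamagawa numbers
are `1`.  The `L`-function of `E` over `K` is entire; its order at `s = 1` is the rank of `E(K)`, both
are zero; the 2-primary part of the Tate-Shafarevich group is finite, in fact zero; and
`L(E/K, 1) √|Δ_K| / Ω` is a rational number whose 2-adic valuation is that of
`#Ш(E/K)[2^∞] Tam(E/K) / (#E(K)_tors)²`, both are zero. -/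
theorem result (m : ℕ) [NeZero m] (hsq : Squarefree m) (hco : m.Coprime 22)
    (hodd : ∀ l : ℕ, l.Prime → l ∣ m → Odd ((l : ℤ) - pts E (ZMod l)))
    (M : Type) [Field M] [NumberField M] [IsCyclotomicExtension {m} ℚ M]
    (K : IntermediateField ℚ M) (n : ℕ) (hn : Module.finrank ℚ K = 2 ^ n) :
    (∀ v : HeightOneSpectrum (𝓞 K), MinimalAt E v) ∧
    {v : HeightOneSpectrum (𝓞 K) | c E v ≠ 1}.Finite ∧
    ∃ L : ℂ → ℂ, Differentiable ℂ L ∧
      (∀ s : ℂ, 3 / 2 < s.re → HasProd (factor (K := K) E s) (L s)) ∧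
      (analyticOrderAt L 1 = rank K E ∧ rank K E = 0 ∧ Finite (base E K).toAffine.Point) ∧
      ((Sha2 K E).Finite ∧ Sha2 K E = {0}) ∧
      ∃ r : ℚ, L 1 * √|(discr K : ℝ)| = r * Omega K E ∧ r ≠ 0 ∧
        padicValRat 2 r = padicValRat 2
          ((Nat.card (Sha2 K E) * Tam K E : ℚ) / (Nat.card (tors K E) : ℚ) ^ 2) ∧
        padicValRat 2 r = 0 := by
  have htamg := Pool.Agent.Y125.s_tamg
  have hperc := Pool.Agent.Y474.PERC.s_perc
  have hodd' : ∀ l : ℕ, l.Prime → l ∣ m → Odd (Pool.Agent.W97.MT.ap Pool.Agent.Y702.E11 l) := by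
    intro l hl hlm
    have h := hodd l hl hlm
    rw [pts_eq, ← Pool.Agent.Y702.L.affCount_eq] at h
    exact h
  have hgal : IsGalois ℚ K := Pool.Agent.Y702.L.gal_F m M K
  obtain ⟨hcub, hsel⟩ := Pool.Agent.Y809.BS.s_sel Pool.Agent.Y809.BS.s_inv
    Pool.Agent.Y180.Y702.s_cubic Pool.Agent.Y852.Two.s_two Pool.Agent.Y809.BS.s_kum
    Pool.Agent.Y154.s_unr Pool.Agent.Y154.s_npar K n m hn hco hodd'
    (fun p hp hpm v hv => Pool.Agent.Y702.Fn.unr m M K hp hpm v hv)
  obtain ⟨hsha, hfin, hcard⟩ := Pool.Agent.Y809.BS.s_desc K hsel hcub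
  have hfin' : Finite (base E K).toAffine.Point := hfin
  have htors : tors K E = Set.univ := tors_eq
  have hrank : rank K E = 0 := rank_eq
  have hSha : Sha2 K E = {0} := sha_eq hsha
  have h11 : ∀ v : HeightOneSpectrum (𝓞 K), ((11 : ℕ) : 𝓞 K) ∈ v.asIdeal →
      v.valuation K ((11 : ℕ) : K) = WithZero.exp (-1 : ℤ) := fun v hv =>
    Pool.Agent.Y702.Fn.unr m M K (by norm_num) (fun h => by
      have h1 : 11 ∣ Nat.gcd m 22 := Nat.dvd_gcd h (by norm_num)
      rw [hco] at h1
      norm_num at h1) v hv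
  have hcodd : ∀ v : HeightOneSpectrum (𝓞 K), Odd (c E v) := fun v =>
    Pool.Agent.Y702.Fn.tam_odd htamg h11 v
  have hTam : Odd (Tam K E) :=
    finprod_induction (fun x => Odd x) odd_one (fun _ _ => Odd.mul) hcodd
  obtain ⟨P, Op, Om, cc, hOp, hOm, g2, g3, hP, hc, hC, hPer⟩ := Pool.Agent.Y702.M.main
  obtain ⟨G, hGd, hGp, him, N, hN, hval⟩ := Pool.Agent.Y702.L.l_main hOp hOm hc hC hPer hP m hsq
    hco hodd' M K n hn
  have hreal : realPeriod E = 2 * Op := by
    unfold realPeriod
    simp_rw [cubic_eq]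
    rw [Pool.Agent.Y419.PR.s_perr P Op Om hOp hOm g2 g3 hP]
  have hcomp : complexPeriod E = 4 * Op * Om := by
    unfold complexPeriod
    simp_rw [cubic_eq]
    rw [hperc P Op Om hOp hOm g2 g3 hP]
    ring
  have hOmega : Omega K E = (2 * Op) ^ nrRealPlaces K * (4 * Op * Om) ^ nrComplexPlaces K := by
    unfold Omega
    rw [hreal, hcomp]
  have hOmega0 : 0 < Omega K E := by
    rw [hOmega]; positivity
  have hN0 : (N : ℝ) ≠ 0 := by
    have : N ≠ 0 := by
      rintro rfl
      exact absurd hN (by decide)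
    exact_mod_cast this
  have hG1 : G 1 ≠ 0 := by
    intro h
    rw [h, norm_zero, zero_mul, ← hOmega] at hval
    have : 0 < |(N : ℝ)| / 5 * Omega K E := mul_pos (div_pos (abs_pos.2 hN0) (by norm_num)) hOmega0
    exact this.ne hval
  have hre : G 1 = ((G 1).re : ℂ) := Complex.ext rfl (by rw [him]; rfl)
  have hnorm : ‖G 1‖ = |(G 1).re| := by
    rw [hre, Complex.norm_real, Real.norm_eq_abs, Complex.ofReal_re]
  have hval0 : padicValRat 2
      ((Nat.card (Sha2 K E) * Tam K E : ℚ) / (Nat.card (tors K E) : ℚ) ^ 2) = 0 := by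
    have hcard' : Odd (Nat.card (base E K).toAffine.Point) := hcard
    rw [hSha, htors, Nat.card_univ, Nat.card_unique, Nat.cast_one, one_mul]
    have : Fact (Nat.Prime 2) := ⟨Nat.prime_two⟩
    rw [padicValRat.div (Nat.cast_ne_zero.2 hTam.pos.ne')
      (pow_ne_zero _ (Nat.cast_ne_zero.2 hcard'.pos.ne')), padicValRat.pow, padicValRat.of_nat,
      padicValRat.of_nat, padicValNat.eq_zero_of_not_dvd hTam.not_two_dvd_nat,
      padicValNat.eq_zero_of_not_dvd hcard'.not_two_dvd_nat]
    simp
  refine ⟨fun v C h1 h2 h3 h4 h6 => ?_, ?_, G, hGd, ?_, ⟨?_, hrank, hfin'⟩,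
    ⟨by rw [hSha]; exact Set.finite_singleton 0, hSha⟩, ?_⟩
  · exact Pool.Agent.Y702.Fn.minimal v C (Pool.Agent.Y702.Fn.c4_le v _ h1 h2 h3 h4 h6)
      (Pool.Agent.Y702.Fn.disc_le v _ h1 h2 h3 h4 h6)
  · refine (W165.CE.finite_bad (K := K) 11 (by norm_num)).subset ?_
    intro v hv
    by_contra hcon
    apply hv
    apply c_one htamg v
    intro h
    apply hcon
    have h1 := (Pool.Agent.H82R3.EK.natCast_mem_iff v 11).1 h
    show ((Pool.Agent.H921R2.TatePole.below v : ℕ) : ℤ) ∣ 11
    exact_mod_cast h1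
  · intro s hs
    rw [factor_eq]
    exact hGp s hs
  · rw [hrank, Nat.cast_zero, analyticOrderAt_eq_zero]
    exact Or.inr hG1
  · obtain ⟨ε, hε, hεr⟩ : ∃ ε : ℚ, (ε = 1 ∨ ε = -1) ∧ (G 1).re = ε * |(G 1).re| := by
      rcases le_total 0 (G 1).re with h | h
      · exact ⟨1, Or.inl rfl, by rw [abs_of_nonneg h]; push_cast; ring⟩
      · exact ⟨-1, Or.inr rfl, by rw [abs_of_nonpos h]; push_cast; ring⟩
    refine ⟨ε * (|(N : ℚ)| / 5), ?_, ?_, ?_, val_zero N hN ε hε⟩
    · rw [hnorm, ← hOmega] at hval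
      rw [hre, hεr]
      push_cast
      have h2 : ((|(G 1).re| : ℝ) : ℂ) * (√|(discr K : ℝ)| : ℝ) =
          ((|(N : ℝ)| / 5 * Omega K E : ℝ) : ℂ) := by
        rw [← Complex.ofReal_mul, hval]
      have h3 : (((|(N : ℚ)| : ℚ) : ℂ)) = ((|(N : ℝ)| : ℝ) : ℂ) := by
        rw [← Complex.ofReal_ratCast]
        push_cast
        rfl
      push_cast at h2 ⊢
      rw [h3]
      linear_combination (ε : ℂ) * h2
    · have : ε ≠ 0 := by rcases hε with rfl | rfl <;> norm_num
      have hNq : (N : ℚ) ≠ 0 := by exact_mod_cast hN0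
      exact mul_ne_zero this (div_ne_zero (abs_ne_zero.2 hNq) (by norm_num))
    · rw [hval0]
      exact val_zero N hN ε hε

end Pool.Agent.Results.MP_e996df_nt.TwoPartX011
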